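import Mathlib

set_option autoImplicit false

open Set

namespace Pool.Agent.H579R3.Epi

/-! ## Labelled trees and the structures coding them -/

/-- the labels -/
abbrev K : Type := ℤ ⊕ ℕ

/-- the universe of the reduced structure: garbage, nodes of the tree, label points -/
inductive D : Type
  | gar : D
  | nd (p : List ℤ) : D
  | lab (p : List ℤ) (κ : K) : D

export D (gar nd lab)

/-- a code for the elements of `D` -/
def D.code : D → Option (List ℤ × Option K)
  | .gar => none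
  | .nd p => some (p, none)
  | .lab p κ => some (p, some κ)

lemma D.code_injective : Function.Injective D.code := by
  intro a b h
  cases a <;> cases b <;> simp_all [D.code]

instance : Countable D := D.code_injective.countable

lemma nd_inj {p q : List ℤ} (h : nd p = nd q) : p = q := by
  simpa using h

lemma lab_inj {p q : List ℤ} {κ κ' : K} (h : lab p κ = lab q κ') : p = q ∧ κ = κ' := by
  simpa using h

lemma nd_ne_lab {p q : List ℤ} {κ : K} : nd p ≠ lab q κ := by simp

lemma nd_ne_gar {p : List ℤ} : nd p ≠ gar := by simp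

lemma lab_ne_gar {p : List ℤ} {κ : K} : lab p κ ≠ gar := by simp

lemma D_cases (d : D) : d = gar ∨ (∃ p, d = nd p) ∨ ∃ p κ, d = lab p κ := by
  rcases d with _ | p | ⟨p, κ⟩
  · exact Or.inl rfl
  · exact Or.inr (Or.inl ⟨p, rfl⟩)
  · exact Or.inr (Or.inr ⟨p, κ, rfl⟩)

/-- the relations of the reduced structure -/
def rel (i : Option K) (a b : D) : Prop :=
  (i = none ∧ ∃ p k, a = nd p ∧ b = nd (k :: p)) ∨
    ∃ κ, i = some κ ∧ ∃ p, a = nd p ∧ b = lab p κ

lemma rel_none {a b : D} : rel none a b ↔ ∃ p k, a = nd p ∧ b = nd (k :: p) := by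
  simp [rel]

lemma rel_some {κ : K} {a b : D} : rel (some κ) a b ↔ ∃ p, a = nd p ∧ b = lab p κ := by
  simp [rel]

/-- an automorphism of the tree `List ℤ` -/
structure IsAuto (g : List ℤ → List ℤ) : Prop where
  bij : Function.Bijective g
  nil : g [] = []
  cons : ∀ k p, ∃ k', g (k :: p) = k' :: g p

/-- the map of `D` induced by a map of the tree -/
def mapD (g : List ℤ → List ℤ) : D → D
  | .gar => gar
  | .nd p => nd (g p)
  | .lab p κ => lab (g p) κ

lemma mapD_gar (g : List ℤ → List ℤ) : mapD g gar = gar := rfl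
lemma mapD_nd (g : List ℤ → List ℤ) (p : List ℤ) : mapD g (nd p) = nd (g p) := rfl
lemma mapD_lab (g : List ℤ → List ℤ) (p : List ℤ) (κ : K) : mapD g (lab p κ) = lab (g p) κ := rfl

lemma mapD_inj {g : List ℤ → List ℤ} (hg : Function.Injective g) :
    Function.Injective (mapD g) := by
  intro a b h
  cases a <;> cases b <;> simp [mapD] at h ⊢
  · exact hg h
  · exact ⟨hg h.1, h.2⟩

lemma mapD_surj {g : List ℤ → List ℤ} (hg : Function.Surjective g) :
    Function.Surjective (mapD g) := by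
  intro b
  rcases D_cases b with rfl | ⟨q, rfl⟩ | ⟨q, κ', rfl⟩
  · exact ⟨gar, rfl⟩
  · obtain ⟨p, rfl⟩ := hg q
    exact ⟨nd p, rfl⟩
  · obtain ⟨p, rfl⟩ := hg q
    exact ⟨lab p κ', rfl⟩

lemma IsAuto.symm {g : List ℤ → List ℤ} (hg : IsAuto g) :
    ∃ g', IsAuto g' ∧ (∀ p, g' (g p) = p) ∧ ∀ p, g (g' p) = p := by
  let e := Equiv.ofBijective g hg.bij
  have h1 : ∀ p, e.symm (g p) = p := fun p => e.symm_apply_apply p
  have h2 : ∀ p, g (e.symm p) = p := fun p => e.apply_symm_apply p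
  refine ⟨e.symm, ⟨e.symm.bijective, ?_, ?_⟩, h1, h2⟩
  · conv_lhs => rw [← hg.nil]
    exact h1 []
  · intro k p
    rcases h : e.symm (k :: p) with _ | ⟨k'', q⟩
    · have := h2 (k :: p)
      rw [h, hg.nil] at this
      exact absurd this (by simp)
    · have h3 := h2 (k :: p)
      rw [h] at h3
      obtain ⟨k3, h4⟩ := hg.cons k'' q
      rw [h4] at h3
      have h5 : g q = p := (List.cons.inj h3).2
      refine ⟨k'', ?_⟩
      rw [← h5, h1]

/-- the structures -/
abbrev Str : Type := (Σ _ : Option K, Fin 2 → ℕ) → Bool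

open Classical in
/-- the structure on `ℕ` pulled back from the reduced structure -/
noncomputable def pull (π : ℕ → D) : Str := fun q => decide (rel q.1 (π (q.2 0)) (π (q.2 1)))

lemma pull_iff (π : ℕ → D) (i : Option K) (a b : ℕ) :
    pull π ⟨i, ![a, b]⟩ = true ↔ rel i (π a) (π b) := by
  classical
  unfold pull
  rw [decide_eq_true_iff]
  rfl

lemma pull_comp (π : ℕ → D) (h : ℕ → ℕ) (q : Σ _ : Option K, Fin 2 → ℕ) :
    pull π ⟨q.1, h ∘ q.2⟩ = pull (π ∘ h) q := rfl

lemma rel_of_pull {π ρ : ℕ → D} (h : pull π = pull ρ) (i : Option K) (a b : ℕ) :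
    rel i (π a) (π b) ↔ rel i (ρ a) (ρ b) := by
  rw [← pull_iff, ← pull_iff, h]

section LemmaA

variable {π ρ : ℕ → D}

lemma node_of (hπ : Function.Surjective π) (h : pull π = pull ρ) {n : ℕ} {p : List ℤ}
    (hn : π n = nd p) : ∃ p', ρ n = nd p' := by
  obtain ⟨m, hm⟩ := hπ (nd (0 :: p))
  have h1 : rel none (π n) (π m) := rel_none.2 ⟨p, 0, hn, hm⟩
  rw [rel_of_pull h, rel_none] at h1
  obtain ⟨p', _, h2, _⟩ := h1
  exact ⟨p', h2⟩

lemma node_uniq (hπ : Function.Surjective π) (h : pull π = pull ρ) {n m : ℕ} {p : List ℤ}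
    (hn : π n = nd p) (hm : π m = nd p) : ρ n = ρ m := by
  obtain ⟨c, hc⟩ := hπ (nd (0 :: p))
  have h1 : rel none (π n) (π c) := rel_none.2 ⟨p, 0, hn, hc⟩
  have h2 : rel none (π m) (π c) := rel_none.2 ⟨p, 0, hm, hc⟩
  rw [rel_of_pull h, rel_none] at h1 h2
  obtain ⟨p1, k1, h3, h4⟩ := h1
  obtain ⟨p2, k2, h5, h6⟩ := h2
  rw [h4] at h6
  have := (List.cons.inj (nd_inj h6)).2
  rw [h3, h5, this]

lemma exists_g (hπ : Function.Surjective π) (h : pull π = pull ρ) :
    ∃ g : List ℤ → List ℤ, ∀ n p, π n = nd p → ρ n = nd (g p) := by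
  have h1 : ∀ p, ∃ p', ∀ n, π n = nd p → ρ n = nd p' := by
    intro p
    obtain ⟨n, hn⟩ := hπ (nd p)
    obtain ⟨p', hp'⟩ := node_of hπ h hn
    exact ⟨p', fun m hm => by rw [← hp', node_uniq hπ h hm hn]⟩
  choose g hg using h1
  exact ⟨g, fun n p hn => hg p n hn⟩

lemma lab_of (hπ : Function.Surjective π) (h : pull π = pull ρ) {g : List ℤ → List ℤ}
    (hg : ∀ n p, π n = nd p → ρ n = nd (g p)) {n : ℕ} {p : List ℤ} {κ : K}
    (hn : π n = lab p κ) : ρ n = lab (g p) κ := by
  obtain ⟨m, hm⟩ := hπ (nd p)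
  have h1 : rel (some κ) (π m) (π n) := rel_some.2 ⟨p, hm, hn⟩
  rw [rel_of_pull h, rel_some] at h1
  obtain ⟨q, h2, h3⟩ := h1
  rw [hg m p hm] at h2
  rw [h3, nd_inj h2]

/-- Two pull-backs agree only if they differ by a tree automorphism. -/
theorem lemmaA (hπ : Function.Surjective π) (hρ : Function.Surjective ρ)
    (h : pull π = pull ρ) : ∃ g : List ℤ → List ℤ, IsAuto g ∧ ∀ n, ρ n = mapD g (π n) := by
  obtain ⟨g, hg⟩ := exists_g hπ h
  obtain ⟨g', hg'⟩ := exists_g hρ h.symm
  have h1 : ∀ p, g' (g p) = p := by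
    intro p
    obtain ⟨n, hn⟩ := hπ (nd p)
    have := hg' n (g p) (hg n p hn)
    rw [hn] at this
    exact (nd_inj this).symm
  have h2 : ∀ p, g (g' p) = p := by
    intro p
    obtain ⟨n, hn⟩ := hρ (nd p)
    have := hg n (g' p) (hg' n p hn)
    rw [hn] at this
    exact (nd_inj this).symm
  have hcons : ∀ k p, ∃ k', g (k :: p) = k' :: g p := by
    intro k p
    obtain ⟨n, hn⟩ := hπ (nd p)
    obtain ⟨m, hm⟩ := hπ (nd (k :: p))
    have h3 : rel none (π n) (π m) := rel_none.2 ⟨p, k, hn, hm⟩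
    rw [rel_of_pull h, rel_none, hg n p hn, hg m _ hm] at h3
    obtain ⟨q, k', h4, h5⟩ := h3
    refine ⟨k', ?_⟩
    rw [nd_inj h4, nd_inj h5]
  refine ⟨g, ⟨⟨?_, ?_⟩, ?_, hcons⟩, ?_⟩
  · intro p q hpq
    rw [← h1 p, hpq, h1]
  · exact fun p => ⟨g' p, h2 p⟩
  · rcases hgn : g [] with _ | ⟨k', q⟩
    · rfl
    · obtain ⟨n, hn⟩ := hρ (nd q)
      obtain ⟨m, hm⟩ := hπ (nd [])
      have h3 : ρ m = nd (k' :: q) := by rw [hg m [] hm, hgn]
      have h4 : rel none (ρ n) (ρ m) := rel_none.2 ⟨q, k', hn, h3⟩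
      rw [← rel_of_pull h, rel_none, hm] at h4
      obtain ⟨p, k, _, h5⟩ := h4
      exact absurd (nd_inj h5) (by simp)
  · intro n
    rcases D_cases (π n) with hn | ⟨p, hn⟩ | ⟨p, κ, hn⟩
    · rw [hn, mapD_gar]
      rcases D_cases (ρ n) with hm | ⟨p, hm⟩ | ⟨p, κ, hm⟩
      · exact hm
      · have := hg' n p hm
        rw [hn] at this
        exact absurd this.symm nd_ne_gar
      · have := lab_of hρ h.symm hg' hm
        rw [hn] at this
        exact absurd this.symm lab_ne_gar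
    · rw [hn, mapD_nd]
      exact hg n p hn
    · rw [hn, mapD_lab]
      exact lab_of hπ h hg hn

end LemmaA

/-! ## Prescribed fibres -/

/-- the points of `D` with infinite fibres, for the labelling `Λ` -/
def J (Λ : List ℤ → Set K) (d : D) : Prop := d = gar ∨ ∃ p κ, d = lab p κ ∧ κ ∈ Λ p

lemma J_gar (Λ : List ℤ → Set K) : J Λ gar := Or.inl rfl

lemma not_J_nd (Λ : List ℤ → Set K) (p : List ℤ) : ¬ J Λ (nd p) := by
  rintro (h | ⟨q, κ, h, _⟩)
  · exact nd_ne_gar h
  · exact nd_ne_lab h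

lemma J_lab (Λ : List ℤ → Set K) (p : List ℤ) (κ : K) : J Λ (lab p κ) ↔ κ ∈ Λ p := by
  constructor
  · rintro (h | ⟨q, κ', h, h'⟩)
    · exact absurd h lab_ne_gar
    · obtain ⟨rfl, rfl⟩ := lab_inj h
      exact h'
  · intro h
    exact Or.inr ⟨p, κ, rfl, h⟩

/-- the fibres of `π` are as prescribed by the labelling `Λ` -/
def Fib (Λ : List ℤ → Set K) (π : ℕ → D) : Prop :=
  ∀ d, (J Λ d → {n | π n = d}.Infinite) ∧ (¬ J Λ d → ∃! n, π n = d)

lemma Fib.surj {Λ : List ℤ → Set K} {π : ℕ → D} (h : Fib Λ π) : Function.Surjective π := by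
  intro d
  by_cases hd : J Λ d
  · obtain ⟨n, hn⟩ := ((h d).1 hd).nonempty
    exact ⟨n, hn⟩
  · obtain ⟨n, hn, _⟩ := (h d).2 hd
    exact ⟨n, hn⟩

/-- the order of labelled trees -/
def TLe (Λ Λ' : List ℤ → Set K) : Prop := ∃ g, IsAuto g ∧ ∀ p, Λ p ⊆ Λ' (g p)

lemma exists_map {S T : Set ℕ} (hS : S.Nonempty) (hT : T.Nonempty)
    (h : S.Infinite ∨ ∃ t, T = {t}) : ∃ f : ℕ → ℕ, (∀ s ∈ S, f s ∈ T) ∧ ∀ t ∈ T, ∃ s ∈ S, f s = t := by
  classical
  rcases h with h | ⟨t, rfl⟩
  · obtain ⟨t₀, ht₀⟩ := hT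
    haveI : Infinite S := h.to_subtype
    obtain ⟨e⟩ := (nonempty_denumerable S)
    let e' : S ≃ ℕ := Denumerable.eqv S
    refine ⟨fun s => if hs : s ∈ S then (if e' ⟨s, hs⟩ ∈ T then e' ⟨s, hs⟩ else t₀) else t₀, ?_, ?_⟩
    · intro s hs
      simp only [dif_pos hs]
      split_ifs with h2
      · exact h2
      · exact ht₀
    · intro t ht
      refine ⟨(e'.symm t : ℕ), (e'.symm t).2, ?_⟩
      simp [ht]
  · obtain ⟨s, hs⟩ := hS
    exact ⟨fun _ => t, fun _ _ => rfl, fun t' ht' => ⟨s, hs, (mem_singleton_iff.1 ht').symm⟩⟩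

/-- Epimorphisms of the coding structures are maps of the labelled trees. -/
theorem lemmaB {Λ Λ' : List ℤ → Set K} {π π' : ℕ → D} (hF : Fib Λ π) (hF' : Fib Λ' π') :
    (∃ h : ℕ → ℕ, Function.Surjective h ∧
      ∀ q : (Σ _ : Option K, Fin 2 → ℕ), pull π' q = pull π ⟨q.1, h ∘ q.2⟩) ↔ TLe Λ Λ' := by
  constructor
  · rintro ⟨h, hs, hp⟩
    have h1 : pull π' = pull (π ∘ h) := by
      funext q
      rw [hp q, pull_comp]
    obtain ⟨g, hg, hgπ⟩ := lemmaA hF'.surj (hF.surj.comp hs) h1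
    have key : ∀ p κ, κ ∈ Λ (g p) → κ ∈ Λ' p := by
      intro p κ hκ
      by_contra hκ'
      obtain ⟨n, hn, hu⟩ := (hF' (lab p κ)).2 (fun hJ => hκ' ((J_lab _ _ _).1 hJ))
      have hinf := (hF (lab (g p) κ)).1 ((J_lab _ _ _).2 hκ)
      have hsub : {m | π m = lab (g p) κ} ⊆ {h n} := by
        intro m hm
        obtain ⟨l, rfl⟩ := hs m
        have h2 := hgπ l
        simp only [Function.comp] at h2
        have hm' : π (h l) = lab (g p) κ := hm
        rw [hm', ← mapD_lab] at h2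
        have h3 := mapD_inj hg.bij.1 h2
        rw [mem_singleton_iff, hu l h3.symm]
      exact hinf ((finite_singleton _).subset hsub)
    obtain ⟨g', hg', h2, h3⟩ := hg.symm
    refine ⟨g', hg', fun p κ hκ => ?_⟩
    apply key
    rw [h3]
    exact hκ
  · rintro ⟨g', hg', hΛ⟩
    obtain ⟨g, hg, h2, h3⟩ := hg'.symm
    have hΛ' : ∀ p, Λ (g p) ⊆ Λ' p := by
      intro p
      have := hΛ (g p)
      rwa [h3] at this
    have hex : ∀ d, ∃ f : ℕ → ℕ, (∀ s ∈ {n | π' n = d}, f s ∈ {n | π n = mapD g d}) ∧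
        ∀ t ∈ {n | π n = mapD g d}, ∃ s ∈ {n | π' n = d}, f s = t := by
      intro d
      apply exists_map
      · exact hF'.surj d
      · exact hF.surj _
      · by_cases hJ : J Λ' d
        · exact Or.inl ((hF' d).1 hJ)
        · right
          have hJ2 : ¬ J Λ (mapD g d) := by
            rcases D_cases d with rfl | ⟨p, rfl⟩ | ⟨p, κ, rfl⟩
            · exact absurd (J_gar _) hJ
            · exact not_J_nd _ _
            · rw [mapD_lab, J_lab]
              rw [J_lab] at hJ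
              exact fun h => hJ (hΛ' p h)
          obtain ⟨n, hn, hu⟩ := (hF _).2 hJ2
          refine ⟨n, ?_⟩
          ext m
          exact ⟨fun hm => hu m hm, fun hm => by rw [mem_singleton_iff.1 hm]; exact hn⟩
    choose f hf1 hf2 using hex
    refine ⟨fun n => f (π' n) n, ?_, ?_⟩
    · intro m
      obtain ⟨d, hd⟩ := mapD_surj hg.bij.2 (π m)
      obtain ⟨s, hs, hfs⟩ := hf2 d m hd.symm
      refine ⟨s, ?_⟩
      have : π' s = d := hs
      simp only [this]
      exact hfs
    · intro q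
      have h4 : ∀ n, π (f (π' n) n) = mapD g (π' n) := fun n => hf1 (π' n) n rfl
      have h5 : ∀ a b, rel q.1 (mapD g a) (mapD g b) ↔ rel q.1 a b := by
        intro a b
        rcases hq : q.1 with _ | κ
        · rw [rel_none, rel_none]
          constructor
          · rintro ⟨p, k, h6, h7⟩
            obtain ⟨a', rfl⟩ : ∃ a', a = nd a' := by
              rcases D_cases a with rfl | ⟨p, rfl⟩ | ⟨p, κ, rfl⟩
              · exact absurd h6.symm nd_ne_gar
              · exact ⟨p, rfl⟩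
              · exact absurd h6.symm nd_ne_lab
            obtain ⟨b', rfl⟩ : ∃ b', b = nd b' := by
              rcases D_cases b with rfl | ⟨p, rfl⟩ | ⟨p, κ, rfl⟩
              · exact absurd h7.symm nd_ne_gar
              · exact ⟨p, rfl⟩
              · exact absurd h7.symm nd_ne_lab
            rw [mapD_nd] at h6 h7
            have e1 := nd_inj h6
            have e2 := nd_inj h7
            rcases b' with _ | ⟨k', b'⟩
            · rw [hg.nil] at e2
              exact absurd e2 (by simp)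
            · obtain ⟨k'', e3⟩ := hg.cons k' b'
              rw [e3] at e2
              have e4 := (List.cons.inj e2).2
              rw [← e1] at e4
              have e5 := hg.bij.1 e4
              exact ⟨a', k', rfl, by rw [e5]⟩
          · rintro ⟨p, k, rfl, rfl⟩
            obtain ⟨k', e⟩ := hg.cons k p
            exact ⟨g p, k', rfl, by rw [mapD_nd, e]⟩
        · rw [rel_some, rel_some]
          constructor
          · rintro ⟨p, h6, h7⟩
            obtain ⟨a', rfl⟩ : ∃ a', a = nd a' := by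
              rcases D_cases a with rfl | ⟨p, rfl⟩ | ⟨p, κ, rfl⟩
              · exact absurd h6.symm nd_ne_gar
              · exact ⟨p, rfl⟩
              · exact absurd h6.symm nd_ne_lab
            obtain ⟨b', κ', rfl⟩ : ∃ b' κ', b = lab b' κ' := by
              rcases D_cases b with rfl | ⟨p, rfl⟩ | ⟨p, κ, rfl⟩
              · exact absurd h7.symm lab_ne_gar
              · exact absurd h7 nd_ne_lab
              · exact ⟨p, κ, rfl⟩
            rw [mapD_nd] at h6
            rw [mapD_lab] at h7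
            have e1 := nd_inj h6
            obtain ⟨e2, e3⟩ := lab_inj h7
            rw [← e1] at e2
            exact ⟨a', rfl, by rw [hg.bij.1 e2, e3]⟩
          · rintro ⟨p, rfl, rfl⟩
            exact ⟨g p, rfl, rfl⟩
      unfold pull
      congr 1
      simp only [Function.comp, h4, h5]

/-- Equal coding structures come from isomorphic labelled trees. -/
theorem lemmaE {Λ Λ' : List ℤ → Set K} {π π' : ℕ → D} (hF : Fib Λ π) (hF' : Fib Λ' π')
    (h : pull π = pull π') : ∃ g, IsAuto g ∧ (∀ n, π' n = mapD g (π n)) ∧ ∀ p, Λ p = Λ' (g p) := by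
  obtain ⟨g, hg, hgπ⟩ := lemmaA hF.surj hF'.surj h
  refine ⟨g, hg, hgπ, fun p => ?_⟩
  have hfib : ∀ κ, {n | π n = lab p κ} = {n | π' n = lab (g p) κ} := by
    intro κ
    ext n
    change π n = lab p κ ↔ π' n = lab (g p) κ
    rw [hgπ n, ← mapD_lab]
    exact ⟨fun h => by rw [h], fun h => mapD_inj hg.bij.1 h⟩
  ext κ
  constructor
  · intro hκ
    by_contra hκ'
    obtain ⟨n, hn, hu⟩ := (hF' (lab (g p) κ)).2 (fun hJ => hκ' ((J_lab _ _ _).1 hJ))
    have h1 := (hF (lab p κ)).1 ((J_lab _ _ _).2 hκ)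
    rw [hfib] at h1
    exact h1 ((finite_singleton n).subset fun m hm => hu m hm)
  · intro hκ
    by_contra hκ'
    obtain ⟨n, hn, hu⟩ := (hF (lab p κ)).2 (fun hJ => hκ' ((J_lab _ _ _).1 hJ))
    have h1 := (hF' (lab (g p) κ)).1 ((J_lab _ _ _).2 hκ)
    rw [← hfib] at h1
    exact h1 ((finite_singleton n).subset fun m hm => hu m hm)

end Pool.Agent.H579R3.Epi
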