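import Mathlib
import Pool.Agent.H579R3.Epi1

set_option autoImplicit false

open Set

namespace Pool.Agent.H579R3.Epi

/-! ## The labelled tree of a point -/

/-- the entries: the `n`-th coordinates of a chain `a₀, (w₁,a₁), …`, most recent pair first -/
abbrev Ent : Type := ℕ × List (ℕ × ℕ)

/-- the entry coded by an integer (only used for nonnegative ones) -/
noncomputable def ent (k : ℤ) : Ent := (Denumerable.eqv Ent).symm k.toNat.unpair.1

/-- the `m`-th code of an entry -/
noncomputable def cd (e : Ent) (m : ℕ) : ℤ := (Nat.pair (Denumerable.eqv Ent e) m : ℕ)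

lemma ent_cd (e : Ent) (m : ℕ) : ent (cd e m) = e := by
  simp [ent, cd]

lemma cd_nonneg (e : Ent) (m : ℕ) : 0 ≤ cd e m := by
  unfold cd
  positivity

lemma le_cd (e : Ent) (m : ℕ) : (m : ℤ) ≤ cd e m := by
  unfold cd
  exact_mod_cast Nat.right_le_pair _ _

lemma cd_inj {e e' : Ent} {m m' : ℕ} (h : cd e m = cd e' m') : m = m' := by
  unfold cd at h
  have h1 : Nat.pair (Denumerable.eqv Ent e) m = Nat.pair (Denumerable.eqv Ent e') m' := by
    exact_mod_cast h
  exact (Nat.pair_eq_pair.1 h1).2

/-- points of Baire space -/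
abbrev N : Type := ℕ → ℕ

/-- the `i`-th coordinates of a chain -/
def evalAt (a : N) (l : List (N × N)) (i : ℕ) : Ent := (a i, l.map fun q => (q.1 i, q.2 i))

/-- the last point of a chain -/
def last (a : N) : List (N × N) → N
  | [] => a
  | q :: _ => q.2

section

variable (α β : N → N)

/-- the chain looks like a chain of the relation up to level `n` -/
def Good (n : ℕ) (a : N) : List (N × N) → Prop
  | [] => True
  | q :: l => (∃ w : N, ∀ i < n, α w i = last a l i ∧ β w i = q.2 i ∧ w i = q.1 i) ∧ Good n a l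

/-- `p` codes the chain -/
def Enc (a : N) (l : List (N × N)) : List ℤ → Prop
  | [] => True
  | k :: p => (0 ≤ k ∧ ent k = evalAt a l p.length) ∧ Enc a l p

/-- `p` codes an approximate chain which ends in `y`, as far as one can see -/
def Valid (y : N) (p : List ℤ) : Prop :=
  ∃ a l, Good α β p.length a l ∧ Enc a l p ∧ ∀ i < p.length, last a l i = y i

/-- the labels of the tree of the point `y` -/
def Lam (y : N) : List ℤ → Set K
  | [] => ∅
  | k :: p => fun κ => (∃ j ≤ k, κ = Sum.inl j) ∨ (Valid α β y (k :: p) ∧ κ = Sum.inr (ent k).1)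

lemma Lam_inl (y : N) (k : ℤ) (p : List ℤ) (j : ℤ) :
    (Sum.inl j : K) ∈ Lam α β y (k :: p) ↔ j ≤ k := by
  change ((∃ j' ≤ k, (Sum.inl j : K) = Sum.inl j') ∨ _) ↔ _
  simp

lemma Lam_inr (y : N) (k : ℤ) (p : List ℤ) (u : ℕ) :
    (Sum.inr u : K) ∈ Lam α β y (k :: p) ↔ Valid α β y (k :: p) ∧ u = (ent k).1 := by
  change ((∃ j' ≤ k, (Sum.inr u : K) = Sum.inl j') ∨ _) ↔ _
  simp

lemma Lam_nil (y : N) (κ : K) : κ ∉ Lam α β y [] := fun h => h

variable {α β}

lemma Good.mono {n m : ℕ} (h : n ≤ m) {a : N} {l : List (N × N)} (hg : Good α β m a l) :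
    Good α β n a l := by
  induction l with
  | nil => trivial
  | cons q l ih =>
    obtain ⟨⟨w, hw⟩, h2⟩ := hg
    exact ⟨⟨w, fun i hi => hw i (lt_of_lt_of_le hi h)⟩, ih h2⟩

lemma evalAt_cons {a a' : N} {q q' : N × N} {l l' : List (N × N)} {i : ℕ}
    (h : evalAt a (q :: l) i = evalAt a' (q' :: l') i) :
    evalAt a l i = evalAt a' l' i ∧ q.1 i = q'.1 i ∧ q.2 i = q'.2 i := by
  simp only [evalAt, List.map_cons, Prod.mk.injEq, List.cons.injEq] at h ⊢
  tauto

lemma last_congr {a a' : N} {l l' : List (N × N)} {i : ℕ}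
    (h : evalAt a l i = evalAt a' l' i) : last a l i = last a' l' i := by
  rcases l with _ | ⟨q, l⟩ <;> rcases l' with _ | ⟨q', l'⟩
  · simpa [evalAt, last] using h
  · simp [evalAt] at h
  · simp [evalAt] at h
  · exact (evalAt_cons h).2.2

lemma Good.congr {n : ℕ} {a a' : N} {l l' : List (N × N)} (hl : l.length = l'.length)
    (h : ∀ i < n, evalAt a l i = evalAt a' l' i) (hg : Good α β n a l) : Good α β n a' l' := by
  induction l generalizing l' with
  | nil =>
    have : l' = [] := List.eq_nil_of_length_eq_zero hl.symm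
    subst this
    trivial
  | cons q l ih =>
    rcases l' with _ | ⟨q', l'⟩
    · simp at hl
    · obtain ⟨⟨w, hw⟩, h2⟩ := hg
      refine ⟨⟨w, fun i hi => ?_⟩, ih (by simpa using hl) (fun i hi => (evalAt_cons (h i hi)).1) h2⟩
      obtain ⟨h3, h4, h5⟩ := evalAt_cons (h i hi)
      obtain ⟨h6, h7, h8⟩ := hw i hi
      exact ⟨by rw [h6, last_congr h3], by rw [h7, h5], by rw [h8, h4]⟩

/-! ### From a witness to a map of trees -/

open Classical in
/-- Given a witness `w` of `R x y`, there is a map of the trees. -/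
theorem tree_map {x y w : N} (hx : α w = x) (hy : β w = y) : TLe (Lam α β x) (Lam α β y) := by
  -- the bijection at each node
  have hσ : ∀ p : List ℤ, ∃ σ : ℤ → ℤ, Function.Bijective σ ∧ ∀ k, k ≤ σ k ∧
      (Valid α β x (k :: p) → 0 ≤ σ k ∧
        ent (σ k) = ((ent k).1, (w p.length, y p.length) :: (ent k).2)) := by
    intro p
    let f : ℤ → ℤ := fun k => if k < 0 then k else
      cd ((ent k).1, (w p.length, y p.length) :: (ent k).2) k.toNat
    let f' : ℤ → ℤ := fun k => if k < 0 then 2 * k else -1 - 2 * k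
    have hf : Function.Injective f := by
      intro k k' h
      simp only [f] at h
      have c1 := cd_nonneg ((ent k).1, (w p.length, y p.length) :: (ent k).2) k.toNat
      have c2 := cd_nonneg ((ent k').1, (w p.length, y p.length) :: (ent k').2) k'.toNat
      split_ifs at h with h1 h2 h2
      · exact h
      · omega
      · omega
      · have := cd_inj h
        omega
    have hf' : Function.Injective f' := by
      intro k k' h
      simp only [f'] at h
      split_ifs at h with h1 h2 h2 <;> omega
    have r1 : ∀ k, k ≤ f k ∧ (Valid α β x (k :: p) → 0 ≤ f k ∧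
        ent (f k) = ((ent k).1, (w p.length, y p.length) :: (ent k).2)) := by
      intro k
      simp only [f]
      split_ifs with h1
      · refine ⟨le_rfl, fun hv => ?_⟩
        obtain ⟨a, l, _, h2, _⟩ := hv
        exact absurd h2.1.1 (by omega)
      · refine ⟨?_, fun _ => ⟨cd_nonneg _ _, ent_cd _ _⟩⟩
        have := le_cd ((ent k).1, (w p.length, y p.length) :: (ent k).2) k.toNat
        omega
    have r2 : ∀ k, f' k ≤ k ∧ (Valid α β x (f' k :: p) → 0 ≤ k ∧
        ent k = ((ent (f' k)).1, (w p.length, y p.length) :: (ent (f' k)).2)) := by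
      intro k
      have h0 : f' k < 0 ∧ f' k ≤ k := by
        simp only [f']
        split_ifs with h1 <;> constructor <;> omega
      refine ⟨h0.2, fun hv => ?_⟩
      obtain ⟨a, l, _, h2, _⟩ := hv
      exact absurd h2.1.1 (by omega)
    obtain ⟨σ, hσ, h⟩ := Function.Embedding.schroeder_bernstein_of_rel hf hf'
      (fun k k' => k ≤ k' ∧ (Valid α β x (k :: p) → 0 ≤ k' ∧
        ent k' = ((ent k).1, (w p.length, y p.length) :: (ent k).2))) r1 r2
    exact ⟨σ, hσ, h⟩
  choose σ hσb hσ using hσ
  -- the automorphism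
  let g : List ℤ → List ℤ := fun p => List.rec [] (fun k p q => σ p k :: q) p
  have g_nil : g [] = [] := rfl
  have g_cons : ∀ k p, g (k :: p) = σ p k :: g p := fun k p => rfl
  have g_len : ∀ p, (g p).length = p.length := by
    intro p
    induction p with
    | nil => rfl
    | cons k p ih => rw [g_cons, List.length_cons, ih, List.length_cons]
  have g_inj : Function.Injective g := by
    intro p
    induction p with
    | nil =>
      intro q hq
      rcases q with _ | ⟨k, q⟩
      · rfl
      · rw [g_nil, g_cons] at hq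
        exact absurd hq (by simp)
    | cons k p ih =>
      intro q hq
      rcases q with _ | ⟨k', q⟩
      · rw [g_nil, g_cons] at hq
        exact absurd hq (by simp)
      · rw [g_cons, g_cons, List.cons.injEq] at hq
        have h1 := ih hq.2
        subst h1
        rw [(hσb p).1 hq.1]
  have g_surj : Function.Surjective g := by
    intro q
    induction q with
    | nil => exact ⟨[], rfl⟩
    | cons k q ih =>
      obtain ⟨p, rfl⟩ := ih
      obtain ⟨k', rfl⟩ := (hσb p).2 k
      exact ⟨k' :: p, rfl⟩
  refine ⟨g, ⟨⟨g_inj, g_surj⟩, g_nil, fun k p => ⟨σ p k, g_cons k p⟩⟩, ?_⟩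
  -- the chains are extended
  have hEnc : ∀ p a l, Good α β p.length a l → Enc a l p →
      (∀ i < p.length, last a l i = x i) → Enc a ((w, y) :: l) (g p) := by
    intro p
    induction p with
    | nil => intro a l _ _ _; trivial
    | cons k p ih =>
      intro a l h1 h2 h3
      have hv : Valid α β x (k :: p) := ⟨a, l, h1, h2, h3⟩
      obtain ⟨h4, h5⟩ := (hσ p k).2 hv
      have hle : p.length ≤ (k :: p).length := by simp
      refine ⟨⟨h4, ?_⟩, ih a l (h1.mono hle) h2.2 (fun i hi => h3 i (lt_of_lt_of_le hi hle))⟩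
      rw [h5, g_len, h2.1.2]
      rfl
  have hVal : ∀ p, Valid α β x p → Valid α β y (g p) := by
    rintro p ⟨a, l, h1, h2, h3⟩
    refine ⟨a, (w, y) :: l, ⟨⟨w, fun i hi => ⟨?_, ?_, rfl⟩⟩, ?_⟩, hEnc p a l h1 h2 h3, ?_⟩
    · rw [hx, h3 i (by rwa [g_len] at hi)]
    · rw [hy]
    · rw [g_len]
      exact h1
    · intro i _
      rfl
  intro p
  rcases p with _ | ⟨k, p⟩
  · intro κ hκ
    exact absurd hκ (Lam_nil _ _ _ _)
  · intro κ hκ
    rw [g_cons]
    rcases κ with j | u
    · rw [Lam_inl] at hκ ⊢
      exact hκ.trans (hσ p k).1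
    · rw [Lam_inr] at hκ ⊢
      obtain ⟨h1, h2⟩ := hκ
      refine ⟨?_, ?_⟩
      · rw [← g_cons]
        exact hVal _ h1
      · rw [((hσ p k).2 h1).2]
        exact h2

/-! ### The trivial branch -/

/-- the branch coding the trivial chain of `x` -/
noncomputable def br (x : N) : ℕ → List ℤ
  | 0 => []
  | n + 1 => cd (x n, []) 0 :: br x n

lemma br_length (x : N) (n : ℕ) : (br x n).length = n := by
  induction n with
  | zero => rfl
  | succ n ih => rw [br, List.length_cons, ih]

lemma br_enc (x : N) (n : ℕ) : Enc x [] (br x n) := by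
  induction n with
  | zero => trivial
  | succ n ih =>
    refine ⟨⟨cd_nonneg _ _, ?_⟩, ih⟩
    rw [ent_cd, br_length]
    rfl

lemma br_valid (x : N) (n : ℕ) : Valid α β x (br x n) :=
  ⟨x, [], trivial, br_enc x n, fun _ _ => rfl⟩

lemma br_lam (x : N) (n : ℕ) : (Sum.inr (x n) : K) ∈ Lam α β x (br x (n + 1)) := by
  change _ ∈ Lam α β x (cd (x n, []) 0 :: br x n)
  rw [Lam_inr]
  refine ⟨br_valid x (n + 1), ?_⟩
  rw [ent_cd]

/-! ### Rigidity -/

theorem rigid {x y : N} {g : List ℤ → List ℤ} (hg : IsAuto g)
    (h : ∀ p, Lam α β x p = Lam α β y (g p)) : (∀ p, g p = p) ∧ x = y := by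
  have h1 : ∀ p, g p = p := by
    intro p
    induction p with
    | nil => exact hg.nil
    | cons k p ih =>
      obtain ⟨k', hk'⟩ := hg.cons k p
      rw [ih] at hk'
      have h2 : ∀ j : ℤ, j ≤ k ↔ j ≤ k' := by
        intro j
        rw [← Lam_inl α β x k p, h, hk', Lam_inl]
      have : k = k' := le_antisymm ((h2 k).1 le_rfl) ((h2 k').2 le_rfl)
      rw [hk', ← this]
  refine ⟨h1, ?_⟩
  funext n
  have h2 := br_lam (α := α) (β := β) x n
  rw [h, h1] at h2
  change _ ∈ Lam α β y (cd (x n, []) 0 :: br x n) at h2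
  rw [Lam_inr] at h2
  obtain ⟨⟨a, l, -, h4, h5⟩, -⟩ := h2
  have h6 := h4.1.2
  rw [ent_cd, br_length] at h6
  simp only [evalAt, Prod.mk.injEq] at h6
  have h7 : l = [] := List.map_eq_nil_iff.1 h6.2.symm
  subst h7
  have h8 := h5 n (by simp [br_length])
  simp only [last] at h8
  rw [h6.1, h8]

/-! ### From a map of trees to the relation -/

lemma Enc.get {a : N} {l : List (N × N)} {q : ℕ → List ℤ} {k : ℕ → ℤ}
    (hq : ∀ n, q (n + 1) = k n :: q n) (hl : ∀ n, (q n).length = n) {n : ℕ}
    (h : Enc a l (q n)) : ∀ i < n, ent (k i) = evalAt a l i := by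
  induction n with
  | zero => intro i hi; omega
  | succ n ih =>
    rw [hq] at h
    intro i hi
    rcases Nat.lt_succ_iff_lt_or_eq.1 hi with h1 | h1
    · exact ih h.2 i h1
    · rw [h1, h.1.2, hl]

/-- the relation with witnesses `w`, where `α w` is related to `β w` -/
theorem rel_of_tree {x y : N} (hα : Continuous α) (hβ : Continuous β)
    (htrans : ∀ u v t w w', α w = u → β w = v → α w' = v → β w' = t →
      ∃ w'', α w'' = u ∧ β w'' = t)
    (h : TLe (Lam α β x) (Lam α β y)) : x = y ∨ ∃ w, α w = x ∧ β w = y := by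
  obtain ⟨g, hg, hL⟩ := h
  let q : ℕ → List ℤ := fun n => g (br x n)
  have hex : ∀ n, ∃ k, q (n + 1) = k :: q n := fun n => hg.cons _ _
  choose k hk using hex
  have hl : ∀ n, (q n).length = n := by
    intro n
    induction n with
    | zero =>
      change (g []).length = 0
      rw [hg.nil]
      rfl
    | succ n ih => rw [hk, List.length_cons, ih]
  have hmem : ∀ n, Valid α β y (q (n + 1)) ∧ x n = (ent (k n)).1 := by
    intro n
    have h1 := hL _ (br_lam (α := α) (β := β) x n)
    change _ ∈ Lam α β y (q (n + 1)) at h1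
    rw [hk, Lam_inr] at h1
    rw [hk]
    exact h1
  -- the limit chain
  set m := (ent (k 0)).2.length with hm
  let L : List (N × N) := List.ofFn fun j : Fin m =>
    ((fun i => ((ent (k i)).2.getD j (0, 0)).1), (fun i => ((ent (k i)).2.getD j (0, 0)).2))
  have hlen : ∀ n, (ent (k n)).2.length = m := by
    intro n
    obtain ⟨⟨a, l, -, h2, -⟩, -⟩ := hmem n
    have h3 := Enc.get hk hl h2 n (by omega)
    have h4 := Enc.get hk hl h2 0 (by omega)
    rw [hm, h3, h4]
    simp [evalAt]
  have hev : ∀ n, evalAt x L n = ent (k n) := by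
    intro n
    have h1 : (L.map fun q => (q.1 n, q.2 n)) = (ent (k n)).2 := by
      apply List.ext_getElem
      · simp [L, hlen]
      · intro j h2 h3
        simp [L, List.getElem?_eq_getElem h3]
    rw [evalAt, h1, (hmem n).2]
  have hgood : ∀ n, Good α β n x L ∧ ∀ i < n, last x L i = y i := by
    intro n
    rcases n with _ | n
    · obtain ⟨⟨a, l, h1, h2, -⟩, -⟩ := hmem 0
      refine ⟨?_, fun i hi => by omega⟩
      have h3 := Enc.get hk hl h2 0 (by omega)
      have h4 := hev 0
      rw [h3] at h4
      have h5 : l.length = L.length := by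
        have := congrArg (fun e => e.2.length) h4
        simp only [evalAt, List.length_map] at this
        exact this.symm
      exact (h1.mono (Nat.zero_le _)).congr h5 (fun i hi => by omega)
    · obtain ⟨⟨a, l, h1, h2, h2'⟩, -⟩ := hmem n
      have h3 := Enc.get hk hl h2
      rw [hl] at h1 h2'
      have h5 : l.length = L.length := by
        have h4 := hev 0
        rw [h3 0 (by omega)] at h4
        have := congrArg (fun e => e.2.length) h4
        simp only [evalAt, List.length_map] at this
        exact this.symm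
      have h6 : ∀ i < n + 1, evalAt a l i = evalAt x L i := by
        intro i hi
        rw [hev, h3 i hi]
      refine ⟨h1.congr h5 h6, fun i hi => ?_⟩
      rw [← last_congr (h6 i hi)]
      exact h2' i hi
  have hlast : last x L = y := by
    funext i
    exact (hgood (i + 1)).2 i (by omega)
  -- closedness
  have hclosed : ∀ (a b w : N), (∀ n, ∃ w' : N, ∀ i < n, α w' i = a i ∧ β w' i = b i ∧ w' i = w i) →
      α w = a ∧ β w = b := by
    intro a b w h1
    choose w' hw' using h1
    have hlim : Filter.Tendsto w' Filter.atTop (nhds w) := by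
      rw [tendsto_pi_nhds]
      intro i
      apply tendsto_const_nhds.congr'
      filter_upwards [Filter.eventually_gt_atTop i] with n hn
      exact ((hw' n i hn).2.2).symm
    constructor
    · funext i
      have h2 := (tendsto_pi_nhds.1 ((hα.tendsto w).comp hlim)) i
      have h3 : Filter.Tendsto (fun n => (α ∘ w') n i) Filter.atTop (nhds (a i)) := by
        apply tendsto_const_nhds.congr'
        filter_upwards [Filter.eventually_gt_atTop i] with n hn
        exact ((hw' n i hn).1).symm
      exact tendsto_nhds_unique h2 h3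
    · funext i
      have h2 := (tendsto_pi_nhds.1 ((hβ.tendsto w).comp hlim)) i
      have h3 : Filter.Tendsto (fun n => (β ∘ w') n i) Filter.atTop (nhds (b i)) := by
        apply tendsto_const_nhds.congr'
        filter_upwards [Filter.eventually_gt_atTop i] with n hn
        exact ((hw' n i hn).2.1).symm
      exact tendsto_nhds_unique h2 h3
  have hreach : ∀ l : List (N × N), (∀ n, Good α β n x l) →
      x = last x l ∨ ∃ w, α w = x ∧ β w = last x l := by
    intro l
    induction l with
    | nil => intro _; exact Or.inl rfl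
    | cons q l ih =>
      intro h1
      have h2 := ih fun n => (h1 n).2
      obtain ⟨h3, h4⟩ := hclosed (last x l) q.2 q.1 fun n => (h1 n).1
      rcases h2 with h2 | ⟨w, h5, h6⟩
      · exact Or.inr ⟨q.1, by rw [h3, ← h2], h4⟩
      · obtain ⟨w'', h7, h8⟩ := htrans _ _ _ _ _ h5 h6 h3 h4
        exact Or.inr ⟨w'', h7, h8⟩
  have := hreach L fun n => (hgood n).1
  rwa [hlast] at this

/-! ### Dependence on the point -/

lemma Valid.congr {y y' : N} {p : List ℤ} (h : ∀ i < p.length, y i = y' i)
    (hv : Valid α β y p) : Valid α β y' p := by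
  obtain ⟨a, l, h1, h2, h3⟩ := hv
  exact ⟨a, l, h1, h2, fun i hi => by rw [h3 i hi, h i hi]⟩

lemma isOpen_valid (p : List ℤ) : IsOpen {y : N | Valid α β y p} := by
  let r : N → (Fin p.length → ℕ) := fun y j => y j
  have hr : Continuous r := continuous_pi fun j => continuous_apply _
  have : {y : N | Valid α β y p} = r ⁻¹' (r '' {y : N | Valid α β y p}) := by
    ext y
    constructor
    · intro hy
      exact ⟨y, hy, rfl⟩
    · rintro ⟨y', hy', h⟩
      refine Valid.congr (fun i hi => ?_) hy'
      exact congrFun h ⟨i, hi⟩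
  rw [this]
  exact (isOpen_discrete _).preimage hr

lemma measurableSet_lam [MeasurableSpace N] [BorelSpace N] (p : List ℤ) (κ : K) :
    MeasurableSet {y : N | κ ∈ Lam α β y p} := by
  rcases p with _ | ⟨k, p⟩
  · have : {y : N | κ ∈ Lam α β y []} = ∅ := by
      ext y
      exact ⟨fun h => absurd h (Lam_nil α β y κ), fun h => absurd h (notMem_empty _)⟩
    rw [this]
    exact MeasurableSet.empty
  · rcases κ with j | u
    · have : {y : N | (Sum.inl j : K) ∈ Lam α β y (k :: p)} = {_y | j ≤ k} := by
        ext y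
        exact Lam_inl _ _ _ _ _ _
      rw [this]
      exact MeasurableSet.const _
    · have : {y : N | (Sum.inr u : K) ∈ Lam α β y (k :: p)} =
          {y | Valid α β y (k :: p)} ∩ {_y | u = (ent k).1} := by
        ext y
        exact Lam_inr _ _ _ _ _ _
      rw [this]
      exact (isOpen_valid _).measurableSet.inter (MeasurableSet.const _)

end

end Pool.Agent.H579R3.Epi
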