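import Pool.Agent.H934R3.NP.Stmts

set_option autoImplicit false
set_option maxHeartbeats 4000000

open MeasureTheory Set Filter Topology
open scoped ENNReal NNReal

namespace Pool.Agent.H579R3.NPC3

open Pool.Agent.H934R3.NP

section
variable {μ : Measure E} [IsFiniteMeasure μ] {K : Set E} (hK : IsCompact K) (hμ : μ Kᶜ = 0)
  {k : E → E → ℝ} (hk : ContinuousOn (Function.uncurry k) (K ×ˢ K))

include hK hμ hk

lemma ae_mem : ∀ᵐ x ∂μ, x ∈ K := by
  rw [ae_iff]; exact hμ

lemma cont_right {z : E} (hz : z ∈ K) : ContinuousOn (fun y => k z y) K := by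
  have h := hk.comp (f := fun y : E => (z, y)) (s := K) (by fun_prop)
    (fun y hy => ⟨hz, hy⟩)
  exact h

lemma memLp_right {z : E} (hz : z ∈ K) : MemLp (fun y => k z y) 2 μ := by
  have h1 := cont_right hK hμ hk hz
  have hr : μ.restrict K = μ := Measure.restrict_eq_self_of_ae_mem (ae_mem hK hμ hk)
  have h2 : AEStronglyMeasurable (fun y => k z y) μ := by
    have := h1.aestronglyMeasurable (μ := μ) hK.measurableSet
    rwa [hr] at this
  obtain ⟨C, hC⟩ := hK.exists_bound_of_continuousOn h1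
  exact MemLp.of_bound h2 C ((ae_mem hK hμ hk).mono fun y hy => hC y hy)

open Classical in
/-- the row of the kernel as an element of `L²` -/
noncomputable def H (μ : Measure E) (k : E → E → ℝ) (z : E) : Lp ℝ 2 μ :=
  if h : MemLp (fun y => k z y) 2 μ then h.toLp else 0

omit hK hμ hk [IsFiniteMeasure μ] in
lemma H_coe {z : E} (hz : MemLp (fun y => k z y) 2 μ) : H μ k z =ᵐ[μ] fun y => k z y := by
  rw [H, dif_pos hz]
  exact hz.coeFn_toLp

omit hK hμ hk [IsFiniteMeasure μ] in
lemma H_inner {z : E} (hz : MemLp (fun y => k z y) 2 μ) (φ : Lp ℝ 2 μ) :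
    inner ℝ (H μ k z) φ = ∫ y, k z y * φ y ∂μ := by
  rw [L2.inner_def]
  refine integral_congr_ae ?_
  filter_upwards [H_coe hz] with y hy
  rw [hy]
  simp [mul_comm]

/-- the constant -/
noncomputable def M (μ : Measure E) : ℝ := (measureUnivNNReal μ : ℝ) ^ ((2 : ℝ≥0∞).toReal⁻¹)

omit hK hμ hk in
lemma M_nonneg : 0 ≤ M μ := by unfold M; positivity

lemma H_sub {x z : E} (hx : x ∈ K) (hz : z ∈ K) {ε : ℝ} (hε : 0 ≤ ε)
    (h : ∀ y ∈ K, |k x y - k z y| ≤ ε) : ‖H μ k x - H μ k z‖ ≤ M μ * ε := by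
  refine Lp.norm_le_of_ae_bound hε ?_
  filter_upwards [ae_mem hK hμ hk, H_coe (memLp_right hK hμ hk hx),
    H_coe (memLp_right hK hμ hk hz), Lp.coeFn_sub (H μ k x) (H μ k z)] with y hy h1 h2 h3
  rw [h3, Pi.sub_apply, h1, h2]
  exact h y hy

/-- a finite net -/
lemma net {δ : ℝ} (hδ : 0 < δ) (hne : K.Nonempty) :
    ∃ p : SimpleFunc E E, (∀ x, p x ∈ K) ∧ ∀ x ∈ K, dist x (p x) < δ := by
  classical
  obtain ⟨t, htK, htf, hcov⟩ := hK.finite_cover_balls hδ
  obtain ⟨x0, hx0⟩ := hne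
  -- enumeration
  have htne : t.Nonempty := by
    have := hcov hx0
    simp only [mem_iUnion] at this
    obtain ⟨i, hi, _⟩ := this
    exact ⟨i, hi⟩
  obtain ⟨e, he⟩ := htf.countable.exists_eq_range htne
  have hb : ∃ N : ℕ, ∀ z ∈ t, ∃ n ≤ N, e n = z := by
    have : ∀ z ∈ t, ∃ n, e n = z := by
      intro z hz
      rw [he] at hz
      exact hz
    choose! n hn using this
    obtain ⟨N, hN⟩ := (htf.image n).bddAbove
    exact ⟨N, fun z hz => ⟨n z, hN (mem_image_of_mem n hz), hn z hz⟩⟩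
  obtain ⟨N, hN⟩ := hb
  refine ⟨SimpleFunc.nearestPt e N, fun x => ?_, fun x hx => ?_⟩
  · apply htK
    rw [he]
    rw [SimpleFunc.nearestPt, SimpleFunc.map_apply]
    exact mem_range_self _
  · have := hcov hx
    simp only [mem_iUnion, Metric.mem_ball] at this
    obtain ⟨z, hz, hxz⟩ := this
    obtain ⟨n, hn, rfl⟩ := hN z hz
    have h1 := SimpleFunc.edist_nearestPt_le e x hn
    rw [dist_comm]
    refine lt_of_le_of_lt ?_ hxz
    rw [edist_dist, edist_dist, ENNReal.ofReal_le_ofReal_iff dist_nonneg] at h1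
    rw [dist_comm x (e n)]
    exact h1

/-- the finite rank approximation -/
noncomputable def Tn (μ : Measure E) [IsFiniteMeasure μ] (k : E → E → ℝ) (p : SimpleFunc E E) :
    Lp ℝ 2 μ →L[ℝ] Lp ℝ 2 μ :=
  ∑ z ∈ p.range, (innerSL ℝ (H μ k z)).smulRight
    (indicatorConstLp 2 (p.measurableSet_fiber z) (measure_ne_top μ _) (1 : ℝ))

omit hK hμ hk in
lemma Tn_coe (p : SimpleFunc E E) (φ : Lp ℝ 2 μ) :
    Tn μ k p φ =ᵐ[μ] fun x => inner ℝ (H μ k (p x)) φ := by
  have h0 : Tn μ k p φ = ∑ z ∈ p.range, (inner ℝ (H μ k z) φ) •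
      (indicatorConstLp 2 (p.measurableSet_fiber z) (measure_ne_top μ _) (1 : ℝ)) := by
    simp [Tn]
  rw [h0]
  have h1 := Lp.coeFn_finsetSum p.range (fun z => (inner ℝ (H μ k z) φ) •
      (indicatorConstLp 2 (p.measurableSet_fiber z) (measure_ne_top μ _) (1 : ℝ)))
  have h2 : ∀ᵐ x ∂μ, ∀ z ∈ p.range, ((inner ℝ (H μ k z) φ) •
      (indicatorConstLp 2 (p.measurableSet_fiber z) (measure_ne_top μ _) (1 : ℝ)) : Lp ℝ 2 μ) x
      = (inner ℝ (H μ k z) φ) * (p ⁻¹' {z}).indicator (fun _ => (1 : ℝ)) x := by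
    refine (Filter.eventually_all_finset p.range).2 ?_
    intro z hz
    filter_upwards [Lp.coeFn_smul (inner ℝ (H μ k z) φ)
      (indicatorConstLp 2 (p.measurableSet_fiber z) (measure_ne_top μ _) (1 : ℝ)),
      indicatorConstLp_coeFn (p := 2) (hs := p.measurableSet_fiber z)
        (hμs := measure_ne_top μ _) (c := (1 : ℝ)) (μ := μ)] with x hx1 hx2
    rw [hx1, Pi.smul_apply, hx2, smul_eq_mul]
  filter_upwards [h1, h2] with x hx1 hx2
  rw [hx1, Finset.sum_apply, Finset.sum_congr rfl (fun z hz => hx2 z hz)]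
  rw [Finset.sum_eq_single (p x)]
  · simp
  · intro z _ hz
    have : x ∉ p ⁻¹' {z} := by
      intro h
      exact hz h.symm
    simp [this]
  · intro h
    exact absurd (SimpleFunc.mem_range_self p x) h

omit hK hμ hk in
lemma Tn_compact (p : SimpleFunc E E) : IsCompactOperator (Tn μ k p) := by
  unfold Tn
  classical
  induction p.range using Finset.induction_on with
  | empty => simpa using isCompactOperator_zero
  | insert a s ha ih =>
    rw [Finset.sum_insert ha]
    refine IsCompactOperator.add ?_ ih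
    have h1 : IsCompactOperator (innerSL ℝ (H μ k a)) := 
      isCompactOperator_of_locallyCompactSpace_dom _
    exact h1.clm_comp (ContinuousLinearMap.toSpanSingleton ℝ
      (indicatorConstLp 2 (p.measurableSet_fiber a) (measure_ne_top μ _) (1 : ℝ)))

end

theorem t : TaskC3 := by
  intro μ hfin K hK hμ k hk T hT
  by_cases hne : K.Nonempty
  swap
  · -- the space is trivial
    rw [not_nonempty_iff_eq_empty] at hne
    subst hne
    have h0 : μ = 0 := by
      rw [← Measure.measure_univ_eq_zero]; simpa using hμ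
    subst h0
    have : T = 0 := by
      refine ContinuousLinearMap.ext fun φ => ?_
      apply Lp.ext
      simp [ae_zero, Filter.EventuallyEq]
    rw [this]
    exact isCompactOperator_zero
  -- every row is in `L²`
  have hH : ∀ φ : Lp ℝ 2 μ, ∀ᵐ x ∂μ, T φ x = inner ℝ (H μ k x) φ := by
    intro φ
    filter_upwards [hT φ, ae_mem hK hμ hk] with x hx hxK
    rw [hx, H_inner (memLp_right hK hμ hk hxK)]
  -- uniform continuity
  have huc : UniformContinuousOn (Function.uncurry k) (K ×ˢ K) :=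
    (hK.prod hK).uniformContinuousOn_of_continuous hk
  rw [Metric.uniformContinuousOn_iff_le] at huc
  have hM := M_nonneg (μ := μ)
  have happ : ∀ ε > 0, ∃ p : SimpleFunc E E, ‖T - Tn μ k p‖ ≤ M μ * (M μ * ε) := by
    intro ε hε
    obtain ⟨δ, hδ, hunif⟩ := huc ε hε
    obtain ⟨p, hpK, hp⟩ := net hK hμ hk hδ hne
    refine ⟨p, ContinuousLinearMap.opNorm_le_bound _ (by positivity) fun φ => ?_⟩
    have hb : ‖(T - Tn μ k p) φ‖ ≤ M μ * (M μ * ε * ‖φ‖) := by
      refine Lp.norm_le_of_ae_bound (by positivity) ?_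
      rw [ContinuousLinearMap.sub_apply]
      filter_upwards [Lp.coeFn_sub (T φ) (Tn μ k p φ), hH φ, Tn_coe p φ (k := k),
        ae_mem hK hμ hk] with x h1 h2 h3 hxK
      rw [h1, Pi.sub_apply, h2, h3, ← inner_sub_left]
      refine (norm_inner_le_norm _ _).trans ?_
      refine mul_le_mul_of_nonneg_right ?_ (norm_nonneg _)
      refine H_sub hK hμ hk hxK (hpK x) hε.le fun y hy => ?_
      have := hunif (x, y) ⟨hxK, hy⟩ (p x, y) ⟨hpK x, hy⟩ (by
        rw [Prod.dist_eq]; simpa using (hp x hxK).le)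
      simpa [Real.dist_eq] using this
    calc _ ≤ _ := hb
      _ = _ := by ring
  have hcl := isClosed_setOfPred_isCompactOperator (σ₁₂ := RingHom.id ℝ)
    (M₁ := Lp ℝ 2 μ) (M₂ := Lp ℝ 2 μ)
  have hmem : T ∈ closure {f : Lp ℝ 2 μ →L[ℝ] Lp ℝ 2 μ | IsCompactOperator f} := by
    rw [Metric.mem_closure_iff]
    intro ε hε
    obtain ⟨p, hp⟩ := happ (ε / (M μ * M μ + 1)) (by positivity)
    refine ⟨Tn μ k p, Tn_compact p, ?_⟩
    rw [dist_eq_norm]
    refine lt_of_le_of_lt hp ?_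
    have : M μ * (M μ * (ε / (M μ * M μ + 1))) = ε * ((M μ * M μ) / (M μ * M μ + 1)) := by
      field_simp
    rw [this]
    have h1 : (M μ * M μ) / (M μ * M μ + 1) < 1 := by
      rw [div_lt_one (by positivity)]; linarith
    calc ε * ((M μ * M μ) / (M μ * M μ + 1)) < ε * 1 := mul_lt_mul_of_pos_left h1 hε
      _ = ε := mul_one _
  rw [hcl.closure_eq] at hmem
  exact hmem

end Pool.Agent.H579R3.NPC3
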