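import Mathlib
import Pool.Agent.H565R2.FO2.Myc

set_option autoImplicit false

/-!
Silver's theorem for Borel equivalence relations: the fusion which embeds the graph `G_0`.
-/

namespace Pool.Agent.H579R3.SV

open Set Filter Topology

/-- the finite set of the positions `< n` where `x` is true -/
def v (n : ℕ) (x : ℕ → Bool) : Finset ℕ := (Finset.range n).filter (fun i => x i = true)

theorem v_succ_false {n : ℕ} {x : ℕ → Bool} (h : x n = false) : v (n + 1) x = v n x := by
  simp [v, Finset.range_add_one, Finset.filter_insert, h]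

theorem v_succ_true {n : ℕ} {x : ℕ → Bool} (h : x n = true) :
    v (n + 1) x = insert n (v n x) := by
  simp [v, Finset.range_add_one, Finset.filter_insert, h]

theorem not_mem_v (n : ℕ) (x : ℕ → Bool) : n ∉ v n x := by simp [v]

theorem v_congr {n : ℕ} {x y : ℕ → Bool} (h : ∀ i < n, x i = y i) : v n x = v n y := by
  unfold v
  apply Finset.filter_congr
  intro i hi
  rw [h i (Finset.mem_range.1 hi)]

theorem v_agree {n : ℕ} {x y : ℕ → Bool} (h : v n x = v n y) : ∀ i < n, x i = y i := by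
  intro i hi
  have h1 : i ∈ v n x ↔ i ∈ v n y := by rw [h]
  simp only [v, Finset.mem_filter, Finset.mem_range, hi, true_and] at h1
  exact Bool.eq_iff_iff.2 h1

/-- configurations -/
abbrev P (X Z : Type*) := (Finset ℕ → X) × (ℕ × Finset ℕ → Z)

variable {X Z : Type*}

/-- valid configurations of level `n` -/
def Val (φ : Z → X × X) (s : ℕ → ℕ → Bool) (n : ℕ) (p : P X Z) : Prop :=
  ∀ (x : ℕ → Bool) (k : ℕ), k < n → v k x = v k (s k) → x k = false →
    φ (p.2 (k, v n x)) = (p.1 (v n x), p.1 (v n (Function.update x k true)))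

/-- positive sets of configurations -/
def Pos (φ : Z → X × X) (s : ℕ → ℕ → Bool) (T : Set X) (n : ℕ) (C : Set (P X Z)) : Prop :=
  ∀ Q : Set X, Q.Countable → ∃ p ∈ C, Val φ s n p ∧ ∀ x, p.1 (v n x) ∈ T \ Q

/-- doubling -/
def dbl (n : ℕ) (p p' : P X Z) (e : Z) : P X Z :=
  (fun w => if n ∈ w then p'.1 (w.erase n) else p.1 w,
   fun q => if q.1 < n then (if n ∈ q.2 then p'.2 (q.1, q.2.erase n) else p.2 q) else e)

theorem dbl_fst (n : ℕ) (p p' : P X Z) (e : Z) (x : ℕ → Bool) :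
    (dbl n p p' e).1 (v (n + 1) x) = if x n = true then p'.1 (v n x) else p.1 (v n x) := by
  by_cases h : x n = true
  · rw [if_pos h, v_succ_true h]
    show (if n ∈ insert n (v n x) then p'.1 ((insert n (v n x)).erase n) else _) = _
    rw [if_pos (Finset.mem_insert_self _ _), Finset.erase_insert (not_mem_v n x)]
  · rw [if_neg h, v_succ_false (Bool.eq_false_iff.2 h)]
    show (if n ∈ v n x then _ else p.1 (v n x)) = _
    rw [if_neg (not_mem_v n x)]

theorem dbl_snd (n : ℕ) (p p' : P X Z) (e : Z) (x : ℕ → Bool) {k : ℕ} (hk : k < n) :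
    (dbl n p p' e).2 (k, v (n + 1) x) =
      if x n = true then p'.2 (k, v n x) else p.2 (k, v n x) := by
  by_cases h : x n = true
  · rw [if_pos h, v_succ_true h]
    show (if k < n then (if n ∈ insert n (v n x) then
      p'.2 (k, (insert n (v n x)).erase n) else _) else e) = _
    rw [if_pos hk, if_pos (Finset.mem_insert_self _ _), Finset.erase_insert (not_mem_v n x)]
  · rw [if_neg h, v_succ_false (Bool.eq_false_iff.2 h)]
    show (if k < n then (if n ∈ v n x then _ else p.2 (k, v n x)) else e) = _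
    rw [if_pos hk, if_neg (not_mem_v n x)]

theorem dbl_val {φ : Z → X × X} {s : ℕ → ℕ → Bool} {n : ℕ} {p p' : P X Z} {e : Z}
    (hp : Val φ s n p) (hp' : Val φ s n p')
    (he : φ e = (p.1 (v n (s n)), p'.1 (v n (s n)))) : Val φ s (n + 1) (dbl n p p' e) := by
  intro x k hk hx hxk
  rw [dbl_fst, dbl_fst]
  rcases Nat.lt_succ_iff_lt_or_eq.1 hk with hk | rfl
  · rw [dbl_snd _ _ _ _ _ hk, Function.update_of_ne hk.ne']
    by_cases h : x n = true
    · rw [if_pos h, if_pos h, if_pos h]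
      exact hp' x k hk hx hxk
    · rw [if_neg h, if_neg h, if_neg h]
      exact hp x k hk hx hxk
  · have h1 : v k (Function.update x k true) = v k x :=
      v_congr fun i hi => Function.update_of_ne hi.ne _ _
    rw [Function.update_self, if_pos rfl, h1, if_neg (by rw [hxk]; decide), hx]
    show φ (if k < k then _ else e) = _
    rw [if_neg (lt_irrefl k), he]

/-- the doubled set -/
def D (_φ : Z → X × X) (_s : ℕ → ℕ → Bool) (n : ℕ) (C : Set (P X Z)) : Set (P X Z) :=
  {r | ∃ p ∈ C, ∃ p' ∈ C, ∃ e, r = dbl n p p' e}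

theorem Pos.dbl {φ : Z → X × X} {s : ℕ → ℕ → Bool} {T : Set X}
    (hT : ∀ a ∈ T, ∀ b ∈ T, a ≠ b → ∃ e, φ e = (a, b)) {n : ℕ} {C : Set (P X Z)}
    (hC : Pos φ s T n C) : Pos φ s T (n + 1) (D φ s n C) := by
  intro Q hQ
  obtain ⟨p, hp, hp1, hp2⟩ := hC Q hQ
  obtain ⟨p', hp', hp1', hp2'⟩ := hC (insert (p.1 (v n (s n))) Q) (hQ.insert _)
  have hne : p.1 (v n (s n)) ≠ p'.1 (v n (s n)) := fun h =>
    (hp2' (s n)).2 (by rw [← h]; exact mem_insert _ _)
  obtain ⟨e, he⟩ := hT _ (hp2 (s n)).1 _ (hp2' (s n)).1 hne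
  refine ⟨SV.dbl n p p' e, ⟨p, hp, p', hp', e, rfl⟩, dbl_val hp1 hp1' he, fun x => ?_⟩
  rw [dbl_fst]
  split_ifs
  · exact ⟨(hp2' x).1, fun h => (hp2' x).2 (mem_insert_of_mem _ h)⟩
  · exact hp2 x

section Metric

variable [MetricSpace X] [SecondCountableTopology X] [MetricSpace Z] [SecondCountableTopology Z]

/-- sets of configurations whose coordinates are near each other -/
def Sm (n : ℕ) (C : Set (P X Z)) : Prop :=
  ∀ p ∈ C, ∀ q ∈ C, ∀ x : ℕ → Bool, dist (p.1 (v n x)) (q.1 (v n x)) ≤ 2 * (1 / 2) ^ n ∧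
    ∀ k < n, dist (p.2 (k, v n x)) (q.2 (k, v n x)) ≤ 2 * (1 / 2) ^ n

theorem v_mem (n : ℕ) (x : ℕ → Bool) : v n x ∈ (Finset.range n).powerset := by
  rw [Finset.mem_powerset]
  exact Finset.filter_subset _ _

theorem Pos.small {φ : Z → X × X} {s : ℕ → ℕ → Bool} {T : Set X} {n : ℕ} {C : Set (P X Z)}
    (hC : Pos φ s T n C) : ∃ C' ⊆ C, Pos φ s T n C' ∧ Sm n C' := by
  let M := (↥((Finset.range n).powerset) → X) × ((Fin n × ↥((Finset.range n).powerset)) → Z)
  let res : P X Z → M := fun p => (fun w => p.1 w.1, fun q => p.2 (q.1.1, q.2.1))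
  obtain ⟨p0, -, -, -⟩ := hC ∅ countable_empty
  have hne : Nonempty M := ⟨res p0⟩
  let d : ℕ → M := TopologicalSpace.denseSeq M
  by_contra hcon
  push Not at hcon
  have hε : (0 : ℝ) < (1 / 2) ^ n := by positivity
  have h1 : ∀ j, ¬ Pos φ s T n {p | p ∈ C ∧ dist (res p) (d j) < (1 / 2) ^ n} := by
    intro j hj
    refine hcon _ (fun p hp => hp.1) hj ?_
    intro p hp q hq x
    have h2 : dist (res p) (res q) ≤ 2 * (1 / 2) ^ n := by
      have := dist_triangle_right (res p) (res q) (d j)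
      have := hp.2
      have := hq.2
      linarith
    have h3 : dist (res p).1 (res q).1 ≤ 2 * (1 / 2) ^ n :=
      le_trans (by rw [Prod.dist_eq]; exact le_max_left _ _) h2
    have h4 : dist (res p).2 (res q).2 ≤ 2 * (1 / 2) ^ n :=
      le_trans (by rw [Prod.dist_eq]; exact le_max_right _ _) h2
    refine ⟨?_, fun k hk => ?_⟩
    · exact le_trans (dist_le_pi_dist (res p).1 (res q).1 ⟨v n x, v_mem n x⟩) h3
    · exact le_trans (dist_le_pi_dist (res p).2 (res q).2 (⟨k, hk⟩, ⟨v n x, v_mem n x⟩)) h4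
  have h2 : ∀ j, ∃ Q : Set X, Q.Countable ∧ ∀ p ∈ C, dist (res p) (d j) < (1 / 2) ^ n →
      Val φ s n p → ¬ ∀ x, p.1 (v n x) ∈ T \ Q := by
    intro j
    have h3 := h1 j
    unfold Pos at h3
    push Not at h3
    obtain ⟨Q, hQ, h3⟩ := h3
    refine ⟨Q, hQ, fun p hp hd hv hx => ?_⟩
    obtain ⟨x, hx'⟩ := h3 p ⟨hp, hd⟩ hv
    exact hx' (hx x)
  choose Q hQ hQ2 using h2
  obtain ⟨p, hp, hp1, hp2⟩ := hC (⋃ j, Q j) (countable_iUnion hQ)
  obtain ⟨j, hj⟩ := (TopologicalSpace.denseRange_denseSeq M).exists_dist_lt (res p) hε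
  exact hQ2 j p hp hj hp1 fun x => ⟨(hp2 x).1, fun h => (hp2 x).2 (mem_iUnion.2 ⟨j, h⟩)⟩

theorem fusion [CompleteSpace X] [CompleteSpace Z] [Nonempty Z] {φ : Z → X × X}
    (hφ : Continuous φ) (s : ℕ → ℕ → Bool) {T : Set X} (hTu : ¬ T.Countable)
    (hT : ∀ a ∈ T, ∀ b ∈ T, a ≠ b → ∃ e, φ e = (a, b)) :
    ∃ ψ : (ℕ → Bool) → X, Continuous ψ ∧ ∀ (k : ℕ) (x : ℕ → Bool), (∀ i < k, x i = s k i) →
      x k = false → ∃ z, φ z = (ψ x, ψ (Function.update x k true)) := by
  have h0 : Pos φ s T 0 (univ : Set (P X Z)) := by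
    intro Q hQ
    have : (T \ Q).Nonempty := by
      by_contra h
      rw [not_nonempty_iff_eq_empty, sdiff_eq_empty] at h
      exact hTu (hQ.mono h)
    obtain ⟨t, ht⟩ := this
    exact ⟨(fun _ => t, fun _ => Classical.arbitrary Z), mem_univ _,
      fun x k hk => absurd hk (Nat.not_lt_zero k), fun x => ht⟩
  obtain ⟨C0, -, hC0, hS0⟩ := h0.small
  let F : ∀ n, {C : Set (P X Z) // Pos φ s T n C ∧ Sm n C} := fun n =>
    Nat.rec ⟨C0, hC0, hS0⟩ (fun n C => ⟨(C.2.1.dbl hT).small.choose,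
      (C.2.1.dbl hT).small.choose_spec.2⟩) n
  have hF : ∀ n, (F (n + 1)).1 ⊆ D φ s n (F n).1 := fun n =>
    ((F n).2.1.dbl hT).small.choose_spec.1
  have hp : ∀ n, ∃ p ∈ (F n).1, Val φ s n p := fun n => by
    obtain ⟨p, h1, h2, _⟩ := (F n).2.1 ∅ countable_empty
    exact ⟨p, h1, h2⟩
  choose p hp1 hp2 using hp
  have hstep : ∀ n x, dist ((p n).1 (v n x)) ((p (n + 1)).1 (v (n + 1) x)) ≤
      2 * (1 / 2) ^ n := by
    intro n x
    obtain ⟨q, hq, q', hq', e, he⟩ := hF n (hp1 (n + 1))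
    rw [he, dbl_fst]
    split_ifs
    · exact ((F n).2.2 _ (hp1 n) _ hq' x).1
    · exact ((F n).2.2 _ (hp1 n) _ hq x).1
  have hstep2 : ∀ n x k, k < n → dist ((p n).2 (k, v n x)) ((p (n + 1)).2 (k, v (n + 1) x)) ≤
      2 * (1 / 2) ^ n := by
    intro n x k hk
    obtain ⟨q, hq, q', hq', e, he⟩ := hF n (hp1 (n + 1))
    rw [he, dbl_snd _ _ _ _ _ hk]
    split_ifs
    · exact ((F n).2.2 _ (hp1 n) _ hq' x).2 k hk
    · exact ((F n).2.2 _ (hp1 n) _ hq x).2 k hk
  have hlim : ∀ x, ∃ y, Tendsto (fun n => (p n).1 (v n x)) atTop (𝓝 y) := fun x =>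
    cauchySeq_tendsto_of_complete
      (cauchySeq_of_le_geometric (1 / 2) 2 (by norm_num) (fun n => hstep n x))
  choose ψ hψ using hlim
  refine ⟨ψ, ?_, ?_⟩
  · have h1 : ∀ n, Continuous fun x => (p n).1 (v n x) := by
      intro n
      rw [continuous_iff_continuousAt]
      intro x
      have h2 : ∀ᶠ y in 𝓝 x, ∀ i ∈ Finset.range n, y i = x i :=
        (Filter.eventually_all_finset _).2 fun i _ =>
          (continuous_apply i).tendsto x
            (IsOpen.mem_nhds (isOpen_discrete ({x i} : Set Bool)) rfl)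
      refine Filter.EventuallyEq.continuousAt (y := (p n).1 (v n x)) ?_
      filter_upwards [h2] with y hy
      rw [v_congr fun i hi => hy i (Finset.mem_range.2 hi)]
    refine TendstoUniformly.continuous (F := fun n x => (p n).1 (v n x)) (p := atTop) ?_
      (Frequently.of_forall h1)
    rw [Metric.tendstoUniformly_iff]
    intro ε hε
    have h3 : Tendsto (fun n : ℕ => (2 : ℝ) * (1 / 2) ^ n / (1 - 1 / 2)) atTop (𝓝 0) := by
      have := (tendsto_pow_atTop_nhds_zero_of_lt_one (r := (1 / 2 : ℝ)) (by norm_num)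
        (by norm_num)).const_mul 2 |>.div_const (1 - 1 / 2)
      simpa using this
    filter_upwards [h3.eventually (gt_mem_nhds hε)] with n hn x
    rw [dist_comm]
    exact lt_of_le_of_lt (dist_le_of_le_geometric_of_tendsto (1 / 2) 2 (by norm_num)
      (fun n => hstep n x) (hψ x) n) hn
  · intro k x hx hxk
    have hc : CauchySeq fun n => (p (n + (k + 1))).2 (k, v (n + (k + 1)) x) := by
      refine cauchySeq_of_le_geometric (1 / 2) (2 * (1 / 2) ^ (k + 1)) (by norm_num) fun n => ?_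
      have := hstep2 (n + (k + 1)) x k (by omega)
      rw [show n + 1 + (k + 1) = n + (k + 1) + 1 by ring]
      refine this.trans (le_of_eq ?_)
      rw [pow_add]
      ring
    obtain ⟨z, hz⟩ := cauchySeq_tendsto_of_complete hc
    refine ⟨z, ?_⟩
    have h1 := (hφ.tendsto z).comp hz
    have h2 := ((tendsto_add_atTop_iff_nat (k + 1)).2 (hψ x)).prodMk_nhds
      ((tendsto_add_atTop_iff_nat (k + 1)).2 (hψ (Function.update x k true)))
    refine tendsto_nhds_unique h1 (h2.congr fun n => ?_)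
    exact (hp2 (n + (k + 1)) x k (by omega) (v_congr hx) hxk).symm

end Metric

end Pool.Agent.H579R3.SV
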