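import Pool.Agent.H579R3.SA

set_option autoImplicit false

/-!
Silver's theorem for Borel equivalence relations on analytic sets.
-/

namespace Pool.Agent.H579R3.SV

open Set Filter Topology MeasureTheory

/-- flipping one coordinate -/
def flip (k : ℕ) (x : ℕ → Bool) : ℕ → Bool := Function.update x k (!x k)

theorem flip_flip (k : ℕ) (x : ℕ → Bool) : flip k (flip k x) = x := by
  funext i
  by_cases h : i = k
  · subst h; simp [flip]
  · simp [flip, h]

theorem flip_of_ne {k i : ℕ} (x : ℕ → Bool) (h : i ≠ k) : flip k x i = x i := by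
  simp [flip, h]

theorem continuous_flip (k : ℕ) : Continuous (flip k) := by
  refine continuous_pi fun i => ?_
  by_cases h : i = k
  · subst h
    have : (fun x : ℕ → Bool => flip i x i) = fun x => !x i := by
      funext x; simp [flip]
    rw [this]
    exact (continuous_of_discreteTopology (f := Bool.not)).comp (continuous_apply i)
  · have : (fun x : ℕ → Bool => flip k x i) = fun x => x i := by
      funext x; exact flip_of_ne x h
    rw [this]
    exact continuous_apply i

/-- flipping as a homeomorphism -/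
def fl (k : ℕ) : (ℕ → Bool) ≃ₜ (ℕ → Bool) where
  toFun := flip k
  invFun := flip k
  left_inv := flip_flip k
  right_inv := flip_flip k
  continuous_toFun := continuous_flip k
  continuous_invFun := continuous_flip k

theorem silver_aux {X : Type*} [MetricSpace X] [CompleteSpace X] [SecondCountableTopology X]
    [MeasurableSpace X] [BorelSpace X] {E : X → X → Prop} (hE : Equivalence E)
    (hm : MeasurableSet {q : X × X | E q.1 q.2}) {T : Set X} (hTu : ¬ T.Countable)
    (hT : ∀ a ∈ T, ∀ b ∈ T, a ≠ b → ¬ E a b) :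
    ∃ h : (ℕ → Bool) → X, Continuous h ∧ ∀ b b', b ≠ b' → ¬ E (h b) (h b') := by
  have hTn : T.Nonempty := by
    by_contra h
    rw [not_nonempty_iff_eq_empty] at h
    exact hTu (h ▸ countable_empty)
  obtain ⟨a, ha⟩ := hTn
  have hG : AnalyticSet {q : X × X | E q.1 q.2}ᶜ := hm.compl.analyticSet
  have hGne : ({q : X × X | E q.1 q.2}ᶜ).Nonempty := by
    have : (T \ {a}).Nonempty := by
      by_contra h
      rw [not_nonempty_iff_eq_empty, sdiff_eq_empty] at h
      exact hTu ((countable_singleton a).mono h)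
    obtain ⟨b, hb, hb'⟩ := this
    exact ⟨(a, b), fun h => hT a ha b hb (fun e => hb' e.symm) h⟩
  rw [analyticSet_iff_exists_polishSpace_range] at hG
  obtain ⟨Z, tZ, pZ, φ, hφ, hφr⟩ := hG
  letI := TopologicalSpace.upgradeIsCompletelyMetrizable Z
  have hZne : Nonempty Z := by
    obtain ⟨q, hq⟩ := hGne
    rw [← hφr] at hq
    obtain ⟨z, -⟩ := hq
    exact ⟨z⟩
  let d : ℕ → ℕ → Bool := TopologicalSpace.denseSeq (ℕ → Bool)
  have hd : DenseRange d := TopologicalSpace.denseRange_denseSeq _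
  let s : ℕ → ℕ → Bool := fun k => d (Nat.unpair k).1
  have hs : ∀ j m, s (Nat.pair j m) = d j := fun j m => by
    show d (Nat.unpair (Nat.pair j m)).1 = d j
    rw [Nat.unpair_pair]
  obtain ⟨ψ, hψ, hedge⟩ := fusion (X := X) (Z := Z) hφ s hTu (fun a ha b hb hab => by
    have : (a, b) ∈ range φ := by
      rw [hφr]
      exact hT a ha b hb hab
    exact this)
  have hedge' : ∀ (k : ℕ) (x : ℕ → Bool), (∀ i < k, x i = s k i) → x k = false →
      ¬ E (ψ x) (ψ (flip k x)) := by
    intro k x hx hxk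
    obtain ⟨z, hz⟩ := hedge k x hx hxk
    have h1 : φ z ∈ {q : X × X | E q.1 q.2}ᶜ := hφr ▸ mem_range_self z
    rw [hz] at h1
    have h2 : flip k x = Function.update x k true := by
      unfold flip
      rw [hxk]
      rfl
    rw [h2]
    exact h1
  let E' : Set ((ℕ → Bool) × (ℕ → Bool)) := {q | E (ψ q.1) (ψ q.2)}
  have hE'm : MeasurableSet E' :=
    ((hψ.prodMap hψ).measurable : Measurable (Prod.map ψ ψ)) hm
  obtain ⟨u, hu, hEu⟩ := hE'm.residualEq_isOpen
  by_cases hne : u.Nonempty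
  · exfalso
    obtain ⟨⟨x0, y0⟩, h0⟩ := hne
    obtain ⟨a, b, ha, hb, hxa, hyb, hab⟩ := isOpen_prod_iff.1 hu x0 y0 h0
    obtain ⟨c, ⟨x1, m, rfl⟩, hxc, hca⟩ :=
      (PiNat.isTopologicalBasis_cylinders (fun _ : ℕ => Bool)).exists_subset_of_mem_open hxa ha
    obtain ⟨j, hj⟩ := hd.exists_mem_open (PiNat.isOpen_cylinder (fun _ : ℕ => Bool) x1 m)
      ⟨x0, hxc⟩
    let k := Nat.pair j m
    have hmk : m ≤ k := Nat.right_le_pair j m
    let O : Set ((ℕ → Bool) × (ℕ → Bool)) := PiNat.cylinder (s k) k ×ˢ b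
    have hO : IsOpen O := (PiNat.isOpen_cylinder (fun _ : ℕ => Bool) (s k) k).prod hb
    have hOne : O.Nonempty := ⟨(s k, y0), PiNat.self_mem_cylinder _ _, hyb⟩
    have hOu : O ⊆ u := by
      rintro ⟨x, z⟩ ⟨hx, hz⟩
      refine hab ⟨hca ?_, hz⟩
      intro i hi
      have h1 := hx i (lt_of_lt_of_le hi hmk)
      rw [show s k = d j from hs j m] at h1
      rw [h1]
      exact hj i hi
    let Θ := (fl k).prodCongr (Homeomorph.refl (ℕ → Bool))
    have hH : {q | q ∈ E' ↔ q ∈ u} ∈ residual ((ℕ → Bool) × (ℕ → Bool)) := hEu.mem_iff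
    have hH2 : Θ ⁻¹' {q | q ∈ E' ↔ q ∈ u} ∈ residual ((ℕ → Bool) × (ℕ → Bool)) :=
      tendsto_residual_of_isOpenMap Θ.continuous Θ.isOpenMap hH
    obtain ⟨q, hqO, hq1, hq2⟩ :=
      (dense_of_mem_residual (inter_mem hH hH2)).inter_open_nonempty O hO hOne
    have hqE : q ∈ E' := hq1.2 (hOu hqO)
    have hΘO : Θ q ∈ O := by
      refine ⟨fun i hi => ?_, hqO.2⟩
      show flip k q.1 i = s k i
      rw [flip_of_ne _ hi.ne]
      exact hqO.1 i hi
    have hqE2 : Θ q ∈ E' := hq2.2 (hOu hΘO)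
    have hEE : E (ψ q.1) (ψ (flip k q.1)) := hE.trans hqE (hE.symm hqE2)
    rcases hb' : q.1 k with _ | _
    · exact hedge' k q.1 hqO.1 hb' hEE
    · refine hedge' k (flip k q.1) (fun i hi => ?_) ?_ ?_
      · rw [flip_of_ne _ hi.ne]
        exact hqO.1 i hi
      · simp [flip, hb']
      · rw [flip_flip]
        exact hE.symm hEE
  · rw [not_nonempty_iff_eq_empty] at hne
    subst hne
    have hR : E'ᶜ ∈ residual ((ℕ → Bool) × (ℕ → Bool)) := by
      filter_upwards [hEu.mem_iff] with q hq hq'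
      exact hq.1 hq'
    rw [mem_residual_iff] at hR
    obtain ⟨S, hSo, hSd, hSc, hS⟩ := hR
    obtain ⟨W, hW⟩ := (hSc.insert (univ : Set ((ℕ → Bool) × (ℕ → Bool)))).exists_eq_range
      ⟨univ, mem_insert _ _⟩
    have hWm : ∀ n, W n ∈ insert univ S := fun n => hW ▸ mem_range_self n
    obtain ⟨h, hh1, hh2⟩ := Pool.Agent.H565R2.FO2.mycielski' (G := ℕ → Bool) W (fun n => by
      rcases hWm n with h | h
      · rw [h]; exact isOpen_univ
      · exact hSo _ h) (fun n => by
      rcases hWm n with h | h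
      · rw [h]; exact dense_univ
      · exact hSd _ h)
    refine ⟨fun x => ψ (h x), hψ.comp hh1, fun b b' hbb hc => ?_⟩
    have h3 : (h b, h b') ∈ ⋂₀ S := by
      intro t ht
      have : t ∈ range W := by
        rw [← hW]
        exact mem_insert_of_mem _ ht
      obtain ⟨n, rfl⟩ := this
      exact hh2 b b' hbb n
    exact hS h3 hc

/-- Silver's theorem for Borel equivalence relations. -/
theorem silver {X : Type*} [TopologicalSpace X] [PolishSpace X] [MeasurableSpace X]
    [BorelSpace X] {E : X → X → Prop} (hE : Equivalence E)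
    (hm : MeasurableSet {q : X × X | E q.1 q.2}) {A : Set X} (hA : AnalyticSet A) :
    (∃ S ⊆ A, S.Countable ∧ ∀ x ∈ A, ∃ y ∈ S, E x y) ∨
      ∃ h : (ℕ → Bool) → X, Continuous h ∧ (∀ b, h b ∈ A) ∧
        ∀ b b', b ≠ b' → ¬ E (h b) (h b') := by
  rw [analyticSet_iff_exists_polishSpace_range] at hA
  obtain ⟨Z, tZ, pZ, f, hf, hfr⟩ := hA
  letI := TopologicalSpace.upgradeIsCompletelyMetrizable Z
  letI : MeasurableSpace Z := borel Z
  haveI : BorelSpace Z := ⟨rfl⟩
  let st : Setoid Z := ⟨fun a b => E (f a) (f b), fun a => hE.refl _, fun h => hE.symm h,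
    fun h h' => hE.trans h h'⟩
  let T : Set Z := range (Quotient.out : Quotient st → Z)
  by_cases hTc : T.Countable
  · left
    refine ⟨f '' T, ?_, hTc.image _, fun x hx => ?_⟩
    · rintro _ ⟨z, -, rfl⟩
      exact hfr ▸ mem_range_self z
    · rw [← hfr] at hx
      obtain ⟨z, rfl⟩ := hx
      refine ⟨f (Quotient.mk st z).out, ⟨_, ⟨_, rfl⟩, rfl⟩, ?_⟩
      exact hE.symm (Quotient.mk_out (s := st) z)
  · right
    obtain ⟨h, h1, h2⟩ := silver_aux (X := Z) (E := fun a b => E (f a) (f b))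
      ⟨fun a => hE.refl _, fun h => hE.symm h, fun h h' => hE.trans h h'⟩
      (((hf.prodMap hf).measurable : Measurable (Prod.map f f)) hm) hTc
      (by
        rintro _ ⟨a, rfl⟩ _ ⟨b, rfl⟩ hab hc
        apply hab
        have : a = b := by
          rw [← Quotient.out_eq a, ← Quotient.out_eq b]
          exact Quotient.sound hc
        rw [this])
    exact ⟨fun b => f (h b), hf.comp h1, fun b => hfr ▸ mem_range_self _, h2⟩

end Pool.Agent.H579R3.SV
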