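import Mathlib

set_option autoImplicit false

/-!
Novikov's separation theorem, and Borel equivalence relations containing an analytic equivalence
relation.
-/

namespace Pool.Agent.H579R3.SV

open Set Filter Topology MeasureTheory

section Novikov

variable {Y : Type*} [MeasurableSpace Y]

def Sep (T : ℕ → Set Y) : Prop :=
  ∃ C : ℕ → Set Y, (∀ n, MeasurableSet (C n)) ∧ (∀ n, T n ⊆ C n) ∧ ⋂ n, C n = ∅

def pc (f : ℕ → (ℕ → ℕ) → Y) (β : ℕ → ℕ) (m n : ℕ) : Set Y :=
  f n '' {α | ∀ j, Nat.pair n j < m → α j = β (Nat.pair n j)}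

theorem pc_step {f : ℕ → (ℕ → ℕ) → Y} {β : ℕ → ℕ} {m : ℕ} (h : ¬ Sep (pc f β m)) :
    ∃ k, ¬ Sep (pc f (Function.update β m k) (m + 1)) := by
  by_contra hc
  push Not at hc
  choose C hC1 hC2 hC3 using hc
  classical
  refine h ⟨fun n => if n = (Nat.unpair m).1 then ⋃ k, C k n else ⋂ k, C k n,
    fun n => ?_, fun n => ?_, ?_⟩
  · dsimp only
    split_ifs
    · exact MeasurableSet.iUnion fun k => hC1 k n
    · exact MeasurableSet.iInter fun k => hC1 k n
  · by_cases hn : n = (Nat.unpair m).1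
    · rintro _ ⟨α, hα, rfl⟩
      dsimp only
      rw [if_pos hn]
      refine mem_iUnion.2 ⟨α (Nat.unpair m).2, hC2 _ n ⟨α, fun j hj => ?_, rfl⟩⟩
      rcases Nat.lt_succ_iff_lt_or_eq.1 hj with h | h
      · rw [Function.update_of_ne h.ne]
        exact hα j h
      · rw [h, Function.update_self, ← h, Nat.unpair_pair]
    · rintro _ ⟨α, hα, rfl⟩
      dsimp only
      rw [if_neg hn]
      refine mem_iInter.2 fun k => hC2 k n ⟨α, fun j hj => ?_, rfl⟩
      rcases Nat.lt_succ_iff_lt_or_eq.1 hj with h | h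
      · rw [Function.update_of_ne h.ne]
        exact hα j h
      · exact absurd (by rw [← h, Nat.unpair_pair]) hn
  · rw [eq_empty_iff_forall_notMem]
    intro y hy
    rw [mem_iInter] at hy
    have h1 := hy (Nat.unpair m).1
    rw [if_pos rfl] at h1
    obtain ⟨k, hk⟩ := mem_iUnion.1 h1
    have h2 : y ∈ ⋂ n, C k n := by
      refine mem_iInter.2 fun n => ?_
      by_cases hn : n = (Nat.unpair m).1
      · rw [hn]; exact hk
      · have := hy n
        rw [if_neg hn] at this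
        exact mem_iInter.1 this k
    rw [hC3 k] at h2
    exact h2

theorem novikov [TopologicalSpace Y] [T2Space Y] [OpensMeasurableSpace Y]
    {f : ℕ → (ℕ → ℕ) → Y} (hf : ∀ n, Continuous (f n)) (h : ⋂ n, range (f n) = ∅) :
    Sep fun n => range (f n) := by
  by_contra hc
  have h0 : ∀ β, pc f β 0 = fun n => range (f n) := by
    intro β
    funext n
    simp [pc]
  let F : ∀ m, {β : ℕ → ℕ // ¬ Sep (pc f β m)} := fun m =>
    Nat.rec ⟨fun _ => 0, by rw [h0]; exact hc⟩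
      (fun m β => ⟨Function.update β.1 m (pc_step β.2).choose, (pc_step β.2).choose_spec⟩) m
  have hF : ∀ m, ∃ k, (F (m + 1)).1 = Function.update (F m).1 m k := fun m => ⟨_, rfl⟩
  let β : ℕ → ℕ := fun m => (F (m + 1)).1 m
  have hβ : ∀ m, ∀ i < m, (F m).1 i = β i := by
    intro m
    induction m with
    | zero => intro i hi; exact absurd hi (Nat.not_lt_zero i)
    | succ m ih =>
      intro i hi
      rcases Nat.lt_succ_iff_lt_or_eq.1 hi with h | rfl
      · obtain ⟨k, hk⟩ := hF m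
        rw [hk, Function.update_of_ne h.ne]
        exact ih i h
      · rfl
  have hpc : ∀ m, ¬ Sep (pc f β m) := by
    intro m
    have : pc f β m = pc f (F m).1 m := by
      funext n
      unfold pc
      congr 1
      ext α
      exact forall_congr' fun j => forall_congr' fun hj => by rw [hβ m _ hj]
    rw [this]
    exact (F m).2
  let α : ℕ → ℕ → ℕ := fun n j => β (Nat.pair n j)
  have hall : ∀ n, f n (α n) = f 0 (α 0) := by
    intro n
    by_contra hne
    obtain ⟨U, V, hU, hV, hu, hv, hd⟩ := t2_separation hne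
    have hcyl : ∀ (n : ℕ) (W : Set Y), IsOpen W → f n (α n) ∈ W →
        ∃ m, ∀ m' ≥ m, pc f β m' n ⊆ W := by
      intro n W hW hw
      have h1 : IsOpen (f n ⁻¹' W) := hW.preimage (hf n)
      obtain ⟨c, ⟨x1, l, rfl⟩, hx, hcl⟩ :=
        (PiNat.isTopologicalBasis_cylinders (fun _ : ℕ => ℕ)).exists_subset_of_mem_open
          (show α n ∈ f n ⁻¹' W from hw) h1
      refine ⟨(Finset.range l).sup (fun j => Nat.pair n j + 1), fun m' hm' => ?_⟩
      rintro _ ⟨γ, hγ, rfl⟩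
      apply hcl
      intro i hi
      have h2 : Nat.pair n i + 1 ≤ m' := le_trans
        (Finset.le_sup (f := fun j => Nat.pair n j + 1) (Finset.mem_range.2 hi)) hm'
      rw [hγ i (by omega)]
      exact hx i hi
    obtain ⟨m1, h1⟩ := hcyl n U hU hu
    obtain ⟨m2, h2⟩ := hcyl 0 V hV hv
    have hn0 : n ≠ 0 := fun e => hne (by rw [e])
    classical
    refine hpc (max m1 m2) ⟨fun i => if i = n then U else if i = 0 then V else univ,
      fun i => ?_, fun i => ?_, ?_⟩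
    · dsimp only
      split_ifs
      · exact hU.measurableSet
      · exact hV.measurableSet
      · exact MeasurableSet.univ
    · dsimp only
      split_ifs with e1 e2
      · rw [e1]; exact h1 _ (le_max_left _ _)
      · rw [e2]; exact h2 _ (le_max_right _ _)
      · exact subset_univ _
    · rw [eq_empty_iff_forall_notMem]
      intro y hy
      rw [mem_iInter] at hy
      have h3 := hy n
      have h4 := hy 0
      rw [if_pos rfl] at h3
      rw [if_neg (Ne.symm hn0), if_pos rfl] at h4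
      exact disjoint_left.1 hd h3 h4
  have : f 0 (α 0) ∈ ⋂ n, range (f n) := mem_iInter.2 fun n => ⟨α n, hall n⟩
  rw [h] at this
  exact this

theorem novikov' [TopologicalSpace Y] [T2Space Y] [OpensMeasurableSpace Y]
    {S : ℕ → Set Y} (hS : ∀ n, AnalyticSet (S n)) (h : ⋂ n, S n = ∅) : Sep S := by
  by_cases hne : ∃ n, S n = ∅
  · obtain ⟨n, hn⟩ := hne
    classical
    refine ⟨fun i => if i = n then ∅ else univ, fun i => ?_, fun i => ?_, ?_⟩
    · dsimp only
      split_ifs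
      · exact MeasurableSet.empty
      · exact MeasurableSet.univ
    · dsimp only
      split_ifs with e
      · rw [e, hn]
      · exact subset_univ _
    · rw [eq_empty_iff_forall_notMem]
      intro y hy
      have := mem_iInter.1 hy n
      rw [if_pos rfl] at this
      exact this
  · push Not at hne
    have h1 : ∀ n, ∃ f : (ℕ → ℕ) → Y, Continuous f ∧ range f = S n := by
      intro n
      have h2 := hS n
      rw [AnalyticSet] at h2
      rcases h2 with h2 | h2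
      · exact absurd h2 (nonempty_iff_ne_empty.1 (hne n))
      · exact h2
    choose f hf hfr using h1
    have h3 : S = fun n => range (f n) := funext fun n => (hfr n).symm
    rw [h3] at h ⊢
    exact novikov hf h

end Novikov

section Inter

variable {X : Type*} [TopologicalSpace X] [PolishSpace X] [MeasurableSpace X] [BorelSpace X]

omit [MeasurableSpace X] [BorelSpace X] in
theorem ana_inter {s t : Set X} (hs : AnalyticSet s) (ht : AnalyticSet t) :
    AnalyticSet (s ∩ t) := by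
  rw [inter_eq_iInter]
  refine AnalyticSet.iInter fun b => ?_
  cases b
  · exact ht
  · exact hs

theorem half {E : Set (X × X)} (hE : AnalyticSet E)
    (htr : ∀ x y z, (x, y) ∈ E → (y, z) ∈ E → (x, z) ∈ E)
    (hsy : ∀ x y, (x, y) ∈ E → (y, x) ∈ E) {R : Set (X × X)} (hR : MeasurableSet R)
    (hER : E ⊆ R) : ∃ R1 : Set (X × X), MeasurableSet R1 ∧ E ⊆ R1 ∧
      (∀ x y, (x, y) ∈ R1 → (y, x) ∈ R1) ∧
      ∀ x y z, (x, y) ∈ R1 → (y, z) ∈ R1 → (x, z) ∈ R := by
  have c1 : Continuous fun q : X × X × X => (q.1, q.2.1) := by fun_prop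
  have c2 : Continuous fun q : X × X × X => (q.2.1, q.2.2) := by fun_prop
  have c3 : Continuous fun q : X × X × X => (q.1, q.2.2) := by fun_prop
  have hT : AnalyticSet ((fun q : X × X × X => (q.1, q.2.1)) ''
      (((fun q : X × X × X => (q.2.1, q.2.2)) ⁻¹' E) ∩
        ((fun q : X × X × X => (q.1, q.2.2)) ⁻¹' Rᶜ))) := by
    refine AnalyticSet.image_of_continuous ?_ c1
    exact ana_inter (hE.preimage c2) ((c3.measurable hR.compl).analyticSet)
  obtain ⟨U, hU1, hU2, hU3⟩ := hE.measurablySeparable hT (by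
    rw [disjoint_left]
    rintro _ hq ⟨⟨x, y, z⟩, ⟨h1, h2⟩, rfl⟩
    exact h2 (hER (htr x y z hq h1)))
  have hT' : AnalyticSet ((fun q : X × X × X => (q.2.1, q.2.2)) ''
      (((fun q : X × X × X => (q.1, q.2.1)) ⁻¹' U) ∩
        ((fun q : X × X × X => (q.1, q.2.2)) ⁻¹' Rᶜ))) := by
    refine AnalyticSet.image_of_continuous ?_ c2
    exact ((c1.measurable hU3).inter (c3.measurable hR.compl)).analyticSet
  obtain ⟨V, hV1, hV2, hV3⟩ := hE.measurablySeparable hT' (by
    rw [disjoint_left]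
    rintro _ hq ⟨⟨x, y, z⟩, ⟨h1, h2⟩, rfl⟩
    exact disjoint_left.1 hU2 ⟨(x, y, z), ⟨hq, h2⟩, rfl⟩ h1)
  have csw : Continuous fun q : X × X => (q.2, q.1) := by fun_prop
  refine ⟨{q | (q ∈ U ∧ (q.2, q.1) ∈ U) ∧ (q ∈ V ∧ (q.2, q.1) ∈ V)}, ?_, ?_, ?_, ?_⟩
  · exact (hU3.inter (csw.measurable hU3)).inter (hV3.inter (csw.measurable hV3))
  · rintro ⟨x, y⟩ h
    exact ⟨⟨hU1 h, hU1 (hsy _ _ h)⟩, hV1 h, hV1 (hsy _ _ h)⟩
  · rintro x y ⟨⟨h1, h2⟩, h3, h4⟩
    exact ⟨⟨h2, h1⟩, h4, h3⟩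
  · rintro x y z ⟨⟨h1, h2⟩, h3, h4⟩ ⟨⟨h1', h2'⟩, h3', h4'⟩
    by_contra h
    exact disjoint_left.1 hV2 ⟨(x, y, z), ⟨h1, h⟩, rfl⟩ h3'

theorem interp {E : X → X → Prop} (hE : Equivalence E)
    (hEa : AnalyticSet {q : X × X | E q.1 q.2}) {R : Set (X × X)} (hR : MeasurableSet R)
    (hER : {q : X × X | E q.1 q.2} ⊆ R) : ∃ F : X → X → Prop, Equivalence F ∧
      MeasurableSet {q : X × X | F q.1 q.2} ∧ (∀ x y, E x y → F x y) ∧
      ∀ x y, F x y → (x, y) ∈ R := by
  have hstep : ∀ R : {R : Set (X × X) // MeasurableSet R ∧ {q : X × X | E q.1 q.2} ⊆ R},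
      ∃ R1 : {R : Set (X × X) // MeasurableSet R ∧ {q : X × X | E q.1 q.2} ⊆ R},
        (∀ x y, (x, y) ∈ R1.1 → (y, x) ∈ R1.1) ∧
      ∀ x y z, (x, y) ∈ R1.1 → (y, z) ∈ R1.1 → (x, z) ∈ R.1 := by
    intro R
    obtain ⟨R1, h1, h2, h3, h4⟩ := half hEa (fun x y z h h' => hE.trans h h')
      (fun x y h => hE.symm h) R.2.1 R.2.2
    exact ⟨⟨R1, h1, h2⟩, h3, h4⟩
  choose N hN1 hN2 using hstep
  let S : ℕ → {R : Set (X × X) // MeasurableSet R ∧ {q : X × X | E q.1 q.2} ⊆ R} := fun n =>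
    N^[n] ⟨R, hR, hER⟩
  have hS : ∀ n, S (n + 1) = N (S n) := fun n => Function.iterate_succ_apply' N n _
  have hrefl : ∀ n x, (x, x) ∈ (S n).1 := fun n x => (S n).2.2 (hE.refl x)
  refine ⟨fun x y => ∀ n, (x, y) ∈ (S (n + 1)).1, ⟨fun x n => hrefl _ x, fun h n => ?_,
    fun h h' n => ?_⟩, ?_, fun x y h n => (S (n + 1)).2.2 h, fun x y h => ?_⟩
  · have := h n
    rw [hS] at this ⊢
    exact hN1 _ _ _ this
  · have h1 := h (n + 1)
    have h2 := h' (n + 1)
    rw [hS (n + 1)] at h1 h2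
    exact hN2 _ _ _ _ h1 h2
  · have : {q : X × X | ∀ n, (q.1, q.2) ∈ (S (n + 1)).1} = ⋂ n, (S (n + 1)).1 := by
      ext q
      simp
    rw [this]
    exact MeasurableSet.iInter fun n => (S (n + 1)).2.1
  · have h1 := h 0
    rw [hS 0] at h1
    exact hN2 _ _ _ _ h1 (by rw [← hS 0]; exact hrefl 1 y)

theorem swap {E : X → X → Prop} (hEa : AnalyticSet {q : X × X | E q.1 q.2})
    {A : Set (ℕ → X)} (hA : MeasurableSet A)
    (hinv : ∀ y z : ℕ → X, (∀ i, E (y i) (z i)) → y ∈ A → z ∈ A) :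
    ∃ R : Set (X × X), MeasurableSet R ∧ {q : X × X | E q.1 q.2} ⊆ R ∧
      ∀ y z : ℕ → X, (∀ i, (y i, z i) ∈ R) → y ∈ A → z ∈ A := by
  have c : ∀ i, Continuous fun q : (ℕ → X) × (ℕ → X) => (q.1 i, q.2 i) := fun i => by fun_prop
  have hD : MeasurableSet {q : (ℕ → X) × (ℕ → X) | q.1 ∈ A ∧ q.2 ∉ A} :=
    (measurable_fst hA).inter (measurable_snd hA.compl)
  obtain ⟨C, hC1, hC2, hC3⟩ := novikov' (S := fun i =>
    {q : (ℕ → X) × (ℕ → X) | q.1 ∈ A ∧ q.2 ∉ A} ∩
      ((fun q : (ℕ → X) × (ℕ → X) => (q.1 i, q.2 i)) ⁻¹' {q : X × X | E q.1 q.2}))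
    (fun i => ana_inter hD.analyticSet (hEa.preimage (c i))) (by
      rw [eq_empty_iff_forall_notMem]
      intro q hq
      rw [mem_iInter] at hq
      exact (hq 0).1.2 (hinv _ _ (fun i => (hq i).2) (hq 0).1.1))
  have hN : AnalyticSet (⋃ i, (fun q : (ℕ → X) × (ℕ → X) => (q.1 i, q.2 i)) ''
      ({q : (ℕ → X) × (ℕ → X) | q.1 ∈ A ∧ q.2 ∉ A} \ C i)) :=
    AnalyticSet.iUnion fun i => (hD.diff (hC1 i)).analyticSet.image_of_continuous (c i)
  obtain ⟨R, hR1, hR2, hR3⟩ := hEa.measurablySeparable hN (by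
    rw [disjoint_left]
    rintro q hq hq2
    obtain ⟨i, ⟨p, ⟨h1, h2⟩, rfl⟩⟩ := mem_iUnion.1 hq2
    exact h2 (hC2 i ⟨h1, hq⟩))
  refine ⟨R, hR3, hR1, fun y z h hy => ?_⟩
  by_contra hz
  have : (y, z) ∈ ⋂ n, C n := by
    refine mem_iInter.2 fun i => ?_
    by_contra hi
    exact disjoint_left.1 hR2 (mem_iUnion.2 ⟨i, (y, z), ⟨⟨hy, hz⟩, hi⟩, rfl⟩) (h i)
  rw [hC3] at this
  exact this

end Inter

end Pool.Agent.H579R3.SV
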