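import Pool.Agent.H579R3.SB
import Pool.Agent.H579R3.SC

set_option autoImplicit false

/-!
The dichotomy for Borel sets of sequences which are invariant under listing the same classes of an
analytic equivalence relation.
-/

namespace Pool.Agent.H579R3.SV

open Set Filter Topology MeasureTheory

/-- `y` and `z` list the same classes -/
def J {X : Type*} (E : X → X → Prop) (y z : ℕ → X) : Prop :=
  (∀ i, ∃ j, E (y i) (z j)) ∧ ∀ j, ∃ i, E (y i) (z j)

theorem J_equiv {X : Type*} {E : X → X → Prop} (hE : Equivalence E) : Equivalence (J E) where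
  refl y := ⟨fun i => ⟨i, hE.refl _⟩, fun i => ⟨i, hE.refl _⟩⟩
  symm h := ⟨fun i => (h.2 i).imp fun _ h => hE.symm h, fun i => (h.1 i).imp fun _ h => hE.symm h⟩
  trans := by
    rintro y z w ⟨h1, h2⟩ ⟨h3, h4⟩
    refine ⟨fun i => ?_, fun j => ?_⟩
    · obtain ⟨j, hj⟩ := h1 i
      obtain ⟨k, hk⟩ := h3 j
      exact ⟨k, hE.trans hj hk⟩
    · obtain ⟨i, hi⟩ := h4 j
      obtain ⟨k, hk⟩ := h2 i
      exact ⟨k, hE.trans hk hi⟩

theorem J_mono {X : Type*} {E F : X → X → Prop} (h : ∀ x y, E x y → F x y) {y z : ℕ → X}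
    (hJ : J E y z) : J F y z :=
  ⟨fun i => (hJ.1 i).imp fun _ => h _ _, fun i => (hJ.2 i).imp fun _ => h _ _⟩

/-- interleaving -/
def comb {X : Type*} (a b : ℕ → X) (n : ℕ) : X := if n % 2 = 0 then a (n / 2) else b (n / 2)

theorem comb_even {X : Type*} (a b : ℕ → X) (m : ℕ) : comb a b (2 * m) = a m := by
  unfold comb
  rw [if_pos (by omega), show 2 * m / 2 = m by omega]

theorem comb_odd {X : Type*} (a b : ℕ → X) (m : ℕ) : comb a b (2 * m + 1) = b m := by
  unfold comb
  rw [if_neg (by omega), show (2 * m + 1) / 2 = m by omega]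

theorem comb_all {X : Type*} (a b : ℕ → X) {p : X → Prop} (ha : ∀ m, p (a m))
    (hb : ∀ m, p (b m)) (n : ℕ) : p (comb a b n) := by
  unfold comb
  split_ifs
  · exact ha _
  · exact hb _

/-- invariance under a finer Borel relation -/
theorem J_inv {X : Type*} {E F : X → X → Prop} (hE : Equivalence E) (hF : Equivalence F)
    {A : Set (ℕ → X)} (hinv : ∀ y z, J E y z → y ∈ A → z ∈ A)
    (hsw : ∀ y z : ℕ → X, (∀ i, F (y i) (z i)) → y ∈ A → z ∈ A) :
    ∀ y z, J F y z → y ∈ A → z ∈ A := by
  rintro y z ⟨h1, h2⟩ hy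
  choose j hj using h1
  choose i hi using h2
  have e1 : J E y (comb y fun m => y (i m)) := by
    refine ⟨fun m => ⟨2 * m, ?_⟩, fun n => ?_⟩
    · rw [comb_even]; exact hE.refl _
    · exact comb_all (p := fun x => ∃ i, E (y i) x) _ _ (fun m => ⟨m, hE.refl _⟩)
        (fun m => ⟨i m, hE.refl _⟩) n
  have e2 : J E (comb (fun m => z (j m)) z) z := by
    refine ⟨fun n => ?_, fun m => ⟨2 * m + 1, ?_⟩⟩
    · exact comb_all (p := fun x => ∃ j, E x (z j)) _ _ (fun m => ⟨j m, hE.refl _⟩)
        (fun m => ⟨m, hE.refl _⟩) n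
    · rw [comb_odd]; exact hE.refl _
  refine hinv _ _ e2 (hsw (comb y fun m => y (i m)) _ (fun n => ?_) (hinv _ _ e1 hy))
  unfold comb
  split_ifs
  · exact hj _
  · exact hi _

variable {X : Type*} [TopologicalSpace X] [PolishSpace X] [MeasurableSpace X] [BorelSpace X]

theorem polish_cantor : PolishSpace (ℕ → Bool) := by
  refine (Continuous.isClosedEmbedding
    (f := fun (b : ℕ → Bool) (n : ℕ) => (if b n = true then 1 else 0 : ℕ)) ?_ ?_).polishSpace
  · exact continuous_pi fun n => (continuous_of_discreteTopology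
      (f := fun t : Bool => (if t = true then 1 else 0 : ℕ))).comp (continuous_apply n)
  · intro b b' h
    funext n
    have := congrFun h n
    cases hb : b n <;> cases hb' : b' n <;> simp_all

theorem not_countable (h : Countable (ℕ → Bool)) : False := by
  obtain ⟨f, hf⟩ := exists_injective_nat (ℕ → Bool)
  exact Function.cantor_injective (fun s : Set ℕ => f (fun n => by classical exact decide (n ∈ s)))
    (fun s t h => by
      have := hf h
      ext n
      simpa using congrFun this n)

theorem meas_rel {W : Type*} [MeasurableSpace W] {F : X → X → Prop}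
    (hm : MeasurableSet {q : X × X | F q.1 q.2}) {f g : W → X} (hf : Measurable f)
    (hg : Measurable g) : MeasurableSet {w | F (f w) (g w)} := (hf.prodMk hg) hm

theorem J_meas {W : Type*} [MeasurableSpace W] {F : X → X → Prop}
    (hm : MeasurableSet {q : X × X | F q.1 q.2}) {f g : W → ℕ → X} (hf : ∀ i, Measurable fun w => f w i)
    (hg : ∀ i, Measurable fun w => g w i) : MeasurableSet {w | J F (f w) (g w)} := by
  have : {w | J F (f w) (g w)} = (⋂ i, ⋃ j, {w | F (f w i) (g w j)}) ∩
      ⋂ j, ⋃ i, {w | F (f w i) (g w j)} := by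
    ext w
    simp [J]
  rw [this]
  exact (MeasurableSet.iInter fun i => MeasurableSet.iUnion fun j => meas_rel hm (hf i) (hg j)).inter
    (MeasurableSet.iInter fun j => MeasurableSet.iUnion fun i => meas_rel hm (hf i) (hg j))

theorem jump {E : X → X → Prop} (hE : Equivalence E)
    (hEa : AnalyticSet {q : X × X | E q.1 q.2}) {A : Set (ℕ → X)} (hA : MeasurableSet A)
    (hinv : ∀ y z, J E y z → y ∈ A → z ∈ A) :
    (∃ S ⊆ A, S.Countable ∧ ∀ x ∈ A, ∃ y ∈ S, J E x y) ∨
      ∃ h : (ℕ → Bool) → ℕ → X, Continuous h ∧ (∀ b, h b ∈ A) ∧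
        ∀ b b', b ≠ b' → ¬ J E (h b) (h b') := by
  classical
  obtain ⟨R, hR, hER, hRsw⟩ := swap hEa hA fun y z h hy =>
    hinv y z ⟨fun i => ⟨i, h i⟩, fun i => ⟨i, h i⟩⟩ hy
  obtain ⟨F, hF, hFm, hEF, hFR⟩ := interp hE hEa hR hER
  have hJF : ∀ y z, J F y z → y ∈ A → z ∈ A := J_inv hE hF hinv fun y z h hy =>
    hRsw y z (fun i => hFR _ _ (h i)) hy
  have hAa : AnalyticSet A := hA.analyticSet
  by_cases hP : ∃ i, ∃ h : (ℕ → Bool) → ℕ → X, Continuous h ∧ (∀ b, h b ∈ A) ∧
      ∀ b b', b ≠ b' → ¬ F (h b i) (h b' i)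
  · right
    obtain ⟨i, h, h1, h2, h3⟩ := hP
    have hPB := polish_cantor
    have hJ := J_equiv hF
    have hh : ∀ i, Continuous fun b => h b i := fun i => (continuous_apply i).comp h1
    rcases silver (X := ℕ → Bool) (E := fun b b' => J F (h b) (h b'))
      ⟨fun _ => hJ.refl _, fun h => hJ.symm h, fun h h' => hJ.trans h h'⟩
      (J_meas hFm (f := fun q : (ℕ → Bool) × (ℕ → Bool) => h q.1) (g := fun q => h q.2)
        (fun i => ((hh i).comp continuous_fst).measurable)
        (fun i => ((hh i).comp continuous_snd).measurable))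
      (MeasurableSet.univ.analyticSet) with ⟨S, -, hS, hS2⟩ | ⟨g, g1, -, g3⟩
    · exfalso
      have h4 : (univ : Set (ℕ → Bool)) ⊆ ⋃ s ∈ S, ⋃ j : ℕ, {b | F (h b i) (h s j)} := by
        intro b _
        obtain ⟨s, hs, hJs⟩ := hS2 b (mem_univ b)
        obtain ⟨j, hj⟩ := hJs.1 i
        exact mem_biUnion hs (mem_iUnion.2 ⟨j, hj⟩)
      have h5 : (univ : Set (ℕ → Bool)).Countable := by
        refine (hS.biUnion fun s _ => countable_iUnion fun j => ?_).mono h4
        refine Set.Subsingleton.countable ?_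
        intro b hb b' hb'
        by_contra hne
        exact h3 b b' hne (hF.trans hb (hF.symm hb'))
      have h6 : Countable (ℕ → Bool) := countable_univ_iff.1 h5
      exact not_countable h6
    · exact ⟨fun b => h (g b), h1.comp g1, fun b => h2 _, fun b b' hb hc =>
        g3 b b' hb (J_mono hEF hc)⟩
  · have hS : ∀ i, ∃ S ⊆ A, S.Countable ∧ ∀ x ∈ A, ∃ y ∈ S, F (x i) (y i) := by
      intro i
      rcases silver (X := ℕ → X) (E := fun y z => F (y i) (z i))
        ⟨fun _ => hF.refl _, fun h => hF.symm h, fun h h' => hF.trans h h'⟩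
        (meas_rel hFm (f := fun q : (ℕ → X) × (ℕ → X) => q.1 i) (g := fun q => q.2 i)
          ((measurable_pi_apply i).comp measurable_fst)
          ((measurable_pi_apply i).comp measurable_snd)) hAa with h | ⟨h, h1, h2, h3⟩
      · exact h
      · exact absurd ⟨i, h, h1, h2, h3⟩ hP
    choose S hSA hSc hS2 using hS
    by_cases hI : ∃ y0 ∈ A, ∃ i0, ∃ x : ℕ → X, (∀ n, F (y0 i0) (x n)) ∧
        ∀ n m, E (x n) (x m) → n = m
    · right
      obtain ⟨y0, hy0, i0, x, hx1, hx2⟩ := hI
      let w : (ℕ → Bool) → ℕ → X := fun b =>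
        comb (fun m => if F (y0 m) (y0 i0) then x 0 else y0 m)
          (fun m => if b m = true then x (m + 1) else x 0)
      have hw : ∀ b, J F y0 (w b) := by
        intro b
        refine ⟨fun m => ⟨2 * m, ?_⟩, fun n => ?_⟩
        · show F (y0 m) (comb _ _ (2 * m))
          rw [comb_even]
          split_ifs with h
          · exact hF.trans h (hx1 0)
          · exact hF.refl _
        · refine comb_all (p := fun z => ∃ i, F (y0 i) z) _ _ (fun m => ?_) (fun m => ?_) n
          · split_ifs with h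
            · exact ⟨i0, hx1 0⟩
            · exact ⟨m, hF.refl _⟩
          · split_ifs
            · exact ⟨i0, hx1 _⟩
            · exact ⟨i0, hx1 _⟩
      have hkey : ∀ b b' : ℕ → Bool, ∀ n, b n = true → b' n = false → ¬ J E (w b) (w b') := by
        intro b b' n hb hb' hJ
        obtain ⟨j, hj⟩ := hJ.1 (2 * n + 1)
        have e1 : w b (2 * n + 1) = x (n + 1) := by
          show comb _ _ (2 * n + 1) = _
          rw [comb_odd, if_pos hb]
        rw [e1] at hj
        refine comb_all (p := fun z => ¬ E (x (n + 1)) z) _ _ (fun m => ?_) (fun m => ?_) j hj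
        · split_ifs with h
          · intro h'
            exact absurd (hx2 _ _ h') (by omega)
          · intro h'
            exact h (hF.symm (hF.trans (hx1 (n + 1)) (hEF _ _ h')))
        · split_ifs with h
          · intro h'
            have := hx2 _ _ h'
            have e2 : n = m := by omega
            rw [← e2, hb'] at h
            exact absurd h (by decide)
          · intro h'
            exact absurd (hx2 _ _ h') (by omega)
      refine ⟨w, ?_, fun b => hJF _ _ (hw b) hy0, fun b b' hne hJ => ?_⟩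
      · refine continuous_pi fun n => ?_
        show Continuous fun b : ℕ → Bool => comb _ _ n
        unfold comb
        split_ifs
        · exact continuous_const
        · exact (continuous_of_discreteTopology
            (f := fun t : Bool => if t = true then x (n / 2 + 1) else x 0)).comp
              (continuous_apply (n / 2))
      · obtain ⟨n, hn⟩ := Function.ne_iff.1 hne
        rcases h : b n with _ | _
        · rcases h' : b' n with _ | _
          · rw [h, h'] at hn; exact hn rfl
          · exact hkey b' b n h' h ((J_equiv hE).symm hJ)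
        · rcases h' : b' n with _ | _
          · exact hkey b b' n h h' hJ
          · rw [h, h'] at hn; exact hn rfl
    · have hK : ∀ e : X, (∃ y0 ∈ A, ∃ i0, y0 i0 = e) → ∃ K : Set X, K.Countable ∧
          ∀ x, F e x → ∃ k ∈ K, E k x := by
        rintro _ ⟨y0, hy0, i0, rfl⟩
        let st : Setoid {x // F (y0 i0) x} := ⟨fun a b => E a.1 b.1, fun a => hE.refl _,
          fun h => hE.symm h, fun h h' => hE.trans h h'⟩
        rcases finite_or_infinite (Quotient st) with hfin | hinf
        · refine ⟨range fun q : Quotient st => q.out.1, countable_range _, fun x hx => ?_⟩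
          exact ⟨_, ⟨Quotient.mk st ⟨x, hx⟩, rfl⟩, Quotient.mk_out (s := st) ⟨x, hx⟩⟩
        · exfalso
          let f := Infinite.natEmbedding (Quotient st)
          refine hI ⟨y0, hy0, i0, fun n => (f n).out.1, fun n => (f n).out.2, fun n m h => ?_⟩
          apply f.injective
          rw [← Quotient.out_eq (f n), ← Quotient.out_eq (f m)]
          exact Quotient.sound h
      rcases A.eq_empty_or_nonempty with hAe | ⟨a0, ha0⟩
      · left
        exact ⟨∅, empty_subset _, countable_empty, fun x hx => by rw [hAe] at hx; exact hx.elim⟩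
      choose! K hKc hK2 using hK
      -- the countable set of representatives
      let T : Set X := ⋃ i, ⋃ y ∈ S i, K (y i)
      have hTc : T.Countable := countable_iUnion fun i => (hSc i).biUnion fun y hy =>
        hKc (y i) ⟨y, hSA i hy, i, rfl⟩
      have hT : ∀ y ∈ A, ∀ i, ∃ k ∈ T, E k (y i) := by
        intro y hy i
        obtain ⟨z, hz, hzF⟩ := hS2 i y hy
        obtain ⟨k, hk, hkE⟩ := hK2 (z i) ⟨z, hSA i hz, i, rfl⟩ (y i) (hF.symm hzF)
        exact ⟨k, mem_iUnion.2 ⟨i, mem_biUnion hz hk⟩, hkE⟩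
      obtain ⟨k0, hk0, -⟩ := hT a0 ha0 0
      obtain ⟨d, hd⟩ := hTc.exists_eq_range ⟨k0, hk0⟩
      have hcd : Continuous fun κ : ℕ → ℕ => fun i => d (κ i) :=
        continuous_pi fun i => continuous_of_discreteTopology.comp (continuous_apply i)
      have hA0 : MeasurableSet {κ : ℕ → ℕ | (fun i => d (κ i)) ∈ A} := hcd.measurable hA
      have hlist : ∀ y ∈ A, ∃ κ : ℕ → ℕ, J E y (fun i => d (κ i)) := by
        intro y hy
        have h1 : ∀ i, ∃ n, E (y i) (d n) := by
          intro i
          obtain ⟨k, hk, hkE⟩ := hT y hy i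
          rw [hd] at hk
          obtain ⟨n, rfl⟩ := hk
          exact ⟨n, hE.symm hkE⟩
        choose κ hκ using h1
        exact ⟨κ, fun i => ⟨i, hκ i⟩, fun i => ⟨i, hκ i⟩⟩
      have hJ := J_equiv hE
      rcases silver (X := ℕ → ℕ) (E := fun κ κ' => J E (fun i => d (κ i)) (fun i => d (κ' i)))
        ⟨fun _ => hJ.refl _, fun h => hJ.symm h, fun h h' => hJ.trans h h'⟩
        (by
          have : {q : (ℕ → ℕ) × (ℕ → ℕ) | J E (fun i => d (q.1 i)) (fun i => d (q.2 i))} =
              {q | J (fun n m : ℕ => E (d n) (d m)) q.1 q.2} := rfl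
          rw [this]
          exact J_meas (X := ℕ) (F := fun n m : ℕ => E (d n) (d m))
            (MeasurableSet.of_discrete) (f := fun q : (ℕ → ℕ) × (ℕ → ℕ) => q.1)
            (g := fun q => q.2)
            (fun i => (measurable_pi_apply i).comp measurable_fst)
            (fun i => (measurable_pi_apply i).comp measurable_snd))
        hA0.analyticSet with ⟨S0, hS0, hS0c, hS02⟩ | ⟨h, h1, h2, h3⟩
      · left
        refine ⟨(fun κ : ℕ → ℕ => fun i => d (κ i)) '' S0, ?_, hS0c.image _, fun y hy => ?_⟩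
        · rintro _ ⟨κ, hκ, rfl⟩
          exact hS0 hκ
        · obtain ⟨κ, hκ⟩ := hlist y hy
          obtain ⟨κ', hκ', h4⟩ := hS02 κ (hinv _ _ hκ hy)
          exact ⟨_, ⟨κ', hκ', rfl⟩, hJ.trans hκ h4⟩
      · right
        exact ⟨fun b i => d (h b i), hcd.comp h1, h2, h3⟩

end Pool.Agent.H579R3.SV
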