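import Pool.Agent.H579R3.SD
import Pool.Agent.H623R2.VE.Mult

set_option autoImplicit false

/-!
The dichotomy for Borel sets of sequences which are invariant under listing the same classes with
the same multiplicities and closed under infinite repetition.
-/

namespace Pool.Agent.H579R3.SV

open Set Filter Topology MeasureTheory

/-- the same classes with the same multiplicities -/
def WE {X : Type*} (E : X → X → Prop) (y z : ℕ → X) : Prop :=
  ∃ π : Equiv.Perm ℕ, ∀ i, E (y i) (z (π i))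

theorem WE_equiv {X : Type*} {E : X → X → Prop} (hE : Equivalence E) : Equivalence (WE E) where
  refl y := ⟨Equiv.refl _, fun i => hE.refl _⟩
  symm := by
    rintro y z ⟨π, h⟩
    exact ⟨π.symm, fun i => hE.symm (by simpa using h (π.symm i))⟩
  trans := by
    rintro y z w ⟨π, h⟩ ⟨τ, h'⟩
    exact ⟨π.trans τ, fun i => hE.trans (h i) (h' _)⟩

theorem WE.J {X : Type*} {E : X → X → Prop} {y z : ℕ → X} (h : WE E y z) : J E y z := by
  obtain ⟨π, h⟩ := h
  exact ⟨fun i => ⟨π i, h i⟩, fun j => ⟨π.symm j, by simpa using h (π.symm j)⟩⟩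

/-- infinite repetition -/
def rep {X : Type*} (y : ℕ → X) : ℕ → X := fun n => y (Nat.unpair n).1

theorem J_rep {X : Type*} {E : X → X → Prop} (hE : Equivalence E) (y : ℕ → X) :
    J E y (rep y) := by
  refine ⟨fun i => ⟨Nat.pair i 0, ?_⟩, fun j => ⟨(Nat.unpair j).1, hE.refl _⟩⟩
  show E (y i) (y (Nat.unpair (Nat.pair i 0)).1)
  rw [Nat.unpair_pair]
  exact hE.refl _

theorem glue {Q : Type*} (u v : ℕ → Q) (h : ∀ c, Nonempty ({n // u n = c} ≃ {n // v n = c})) :
    ∃ π : Equiv.Perm ℕ, ∀ n, v (π n) = u n := by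
  let e := fun c => (h c).some
  exact ⟨(Equiv.sigmaFiberEquiv u).symm.trans ((Equiv.sigmaCongrRight fun c => (e c)).trans
    (Equiv.sigmaFiberEquiv v)), fun n => ((e (u n)) ⟨n, rfl⟩).2⟩

theorem WE_of_J {X : Type*} {E : X → X → Prop} (hE : Equivalence E) {y z : ℕ → X}
    (h : J E y z) : WE E (rep y) (rep z) := by
  classical
  let st : Setoid X := ⟨E, hE⟩
  obtain ⟨π, hπ⟩ := glue (fun n => Quotient.mk st (rep y n)) (fun n => Quotient.mk st (rep z n))
    (fun c => by
      have hinf : ∀ (w : ℕ → X) (i : ℕ), Quotient.mk st (w i) = c →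
          Infinite {n // Quotient.mk st (rep w n) = c} := by
        intro w i hi
        refine Infinite.of_injective (fun k : ℕ => (⟨Nat.pair i k, ?_⟩ :
          {n // Quotient.mk st (rep w n) = c})) ?_
        · show Quotient.mk st (w (Nat.unpair (Nat.pair i k)).1) = c
          rw [Nat.unpair_pair]
          exact hi
        · intro k k' hk
          have := congrArg Subtype.val hk
          exact (Nat.pair_eq_pair.1 this).2
      by_cases hc : ∃ i, Quotient.mk st (y i) = c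
      · obtain ⟨i, hi⟩ := hc
        obtain ⟨j, hj⟩ := h.1 i
        have h1 := hinf y i hi
        have h2 := hinf z j (by rw [← hi]; exact (Quotient.sound hj).symm)
        obtain ⟨d1⟩ := nonempty_denumerable {n // Quotient.mk st (rep y n) = c}
        obtain ⟨d2⟩ := nonempty_denumerable {n // Quotient.mk st (rep z n) = c}
        exact ⟨Denumerable.equiv₂ _ _⟩
      · have h1 : IsEmpty {n // Quotient.mk st (rep y n) = c} :=
          ⟨fun n => hc ⟨_, n.2⟩⟩
        have h2 : IsEmpty {n // Quotient.mk st (rep z n) = c} := by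
          refine ⟨fun n => ?_⟩
          obtain ⟨i, hi⟩ := h.2 (Nat.unpair n.1).1
          exact hc ⟨i, (Quotient.sound hi).trans n.2⟩
        exact ⟨Equiv.equivOfIsEmpty _ _⟩)
  exact ⟨π, fun n => hE.symm (Quotient.exact (hπ n))⟩

theorem J_of_WE_rep {X : Type*} {E : X → X → Prop} (hE : Equivalence E) {y z : ℕ → X}
    (h : WE E (rep y) (rep z)) : J E y z :=
  (J_equiv hE).trans (J_rep hE y) ((J_equiv hE).trans h.J ((J_equiv hE).symm (J_rep hE z)))

variable {X : Type*} [TopologicalSpace X] [PolishSpace X] [MeasurableSpace X] [BorelSpace X]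

omit [PolishSpace X] [MeasurableSpace X] [BorelSpace X] in
theorem continuous_rep : Continuous (rep : (ℕ → X) → ℕ → X) :=
  continuous_pi fun _ => continuous_apply _

/-- countable or perfect -/
def Dich (E : X → X → Prop) (V : Set (ℕ → X)) : Prop :=
  (∃ S ⊆ V, S.Countable ∧ ∀ x ∈ V, ∃ y ∈ S, WE E x y) ∨
    ∃ h : (ℕ → Bool) → ℕ → X, Continuous h ∧ (∀ b, h b ∈ V) ∧
      ∀ b b', b ≠ b' → ¬ WE E (h b) (h b')

theorem dich_list {E : X → X → Prop} (hE : Equivalence E) {A : Set (ℕ → X)}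
    (hA : MeasurableSet A) (hinv : ∀ y z, WE E y z → y ∈ A → z ∈ A) (d : ℕ → X)
    (hd : ∀ y ∈ A, ∀ i, ∃ n, E (y i) (d n)) : Dich E A := by
  classical
  have hW := WE_equiv hE
  let st : Setoid X := ⟨E, hE⟩
  have hcd : Continuous fun κ : ℕ → ℕ => fun i => d (κ i) :=
    continuous_pi fun i => continuous_of_discreteTopology.comp (continuous_apply i)
  have hA0 : MeasurableSet {κ : ℕ → ℕ | (fun i => d (κ i)) ∈ A} := hcd.measurable hA
  have hlist : ∀ y ∈ A, ∃ κ : ℕ → ℕ, WE E y (fun i => d (κ i)) := by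
    intro y hy
    choose κ hκ using hd y hy
    exact ⟨κ, Equiv.refl _, hκ⟩
  let Cnt : (ℕ → ℕ) → ℕ × ℕ → Prop := fun κ q =>
    ∃ w : Fin (q.2 + 1) → ℕ, Function.Injective w ∧ ∀ j, E (d (κ (w j))) (d q.1)
  let Φ : (ℕ → ℕ) → ℕ × ℕ → Bool := fun κ q => decide (Cnt κ q)
  have hΦm : Measurable Φ := by
    refine measurable_pi_lambda _ fun q => measurable_to_bool ?_
    have e1 : (fun κ => Φ κ q) ⁻¹' {true} = ⋃ w : Fin (q.2 + 1) → ℕ,
        {κ : ℕ → ℕ | Function.Injective w ∧ ∀ j, E (d (κ (w j))) (d q.1)} := by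
      ext κ
      simp [Φ, Cnt]
    rw [e1]
    refine MeasurableSet.iUnion fun w => ?_
    have e2 : {κ : ℕ → ℕ | Function.Injective w ∧ ∀ j, E (d (κ (w j))) (d q.1)} =
        {_κ | Function.Injective w} ∩ ⋂ j, (fun κ : ℕ → ℕ => κ (w j)) ⁻¹'
          {n | E (d n) (d q.1)} := by
      ext κ
      simp
    rw [e2]
    exact (MeasurableSet.const _).inter (MeasurableSet.iInter fun j =>
      (measurable_pi_apply (w j)) (MeasurableSet.of_discrete))
  have hmono : ∀ κ κ' : ℕ → ℕ, WE E (fun i => d (κ i)) (fun i => d (κ' i)) → ∀ q,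
      Cnt κ q → Cnt κ' q := by
    rintro κ κ' ⟨π, hπ⟩ q ⟨w, hw, hw2⟩
    exact ⟨fun j => π (w j), π.injective.comp hw, fun j => hE.trans (hE.symm (hπ _)) (hw2 j)⟩
  have hΦ : ∀ κ κ' : ℕ → ℕ, WE E (fun i => d (κ i)) (fun i => d (κ' i)) ↔ Φ κ = Φ κ' := by
    intro κ κ'
    constructor
    · intro h
      funext q
      exact decide_eq_decide.2 ⟨hmono κ κ' h q, hmono κ' κ (hW.symm h) q⟩
    · intro h
      have h' : ∀ q, Cnt κ q ↔ Cnt κ' q := fun q => decide_eq_decide.1 (congrFun h q)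
      have hemb : ∀ (κ : ℕ → ℕ) (n0 k : ℕ), Nonempty (Fin (k + 1) ↪
          {n // Quotient.mk st (d (κ n)) = Quotient.mk st (d n0)}) ↔ Cnt κ (n0, k) := by
        intro κ n0 k
        constructor
        · rintro ⟨f⟩
          exact ⟨fun j => (f j).1, fun a b hab => f.injective (Subtype.ext hab),
            fun j => Quotient.exact (f j).2⟩
        · rintro ⟨w, hw, hw2⟩
          exact ⟨⟨fun j => ⟨w j, Quotient.sound (hw2 j)⟩, fun a b hab =>
            hw (congrArg Subtype.val hab)⟩⟩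
      obtain ⟨π, hπ⟩ := glue (fun n => Quotient.mk st (d (κ n)))
        (fun n => Quotient.mk st (d (κ' n))) (fun c => by
          by_cases hc : ∃ n0, Quotient.mk st (d n0) = c
          · obtain ⟨n0, rfl⟩ := hc
            exact Pool.Agent.H623R2.VE.equiv_of_emb fun k => by
              rw [hemb κ n0 k, hemb κ' n0 k]
              exact h' _
          · have h1 : IsEmpty {n // Quotient.mk st (d (κ n)) = c} := ⟨fun n => hc ⟨_, n.2⟩⟩
            have h2 : IsEmpty {n // Quotient.mk st (d (κ' n)) = c} := ⟨fun n => hc ⟨_, n.2⟩⟩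
            exact ⟨Equiv.equivOfIsEmpty _ _⟩)
      exact ⟨π, fun n => hE.symm (Quotient.exact (hπ n))⟩
  rcases silver (X := ℕ → ℕ) (E := fun κ κ' => WE E (fun i => d (κ i)) (fun i => d (κ' i)))
    ⟨fun _ => hW.refl _, fun h => hW.symm h, fun h h' => hW.trans h h'⟩
    (by
      have : {q : (ℕ → ℕ) × (ℕ → ℕ) | WE E (fun i => d (q.1 i)) (fun i => d (q.2 i))} =
          {q | Φ q.1 = Φ q.2} := by
        ext q
        exact hΦ _ _
      rw [this]
      exact measurableSet_eq_fun (hΦm.comp measurable_fst) (hΦm.comp measurable_snd))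
    hA0.analyticSet with ⟨S0, hS0, hS0c, hS02⟩ | ⟨h, h1, h2, h3⟩
  · left
    refine ⟨(fun κ : ℕ → ℕ => fun i => d (κ i)) '' S0, ?_, hS0c.image _, fun y hy => ?_⟩
    · rintro _ ⟨κ, hκ, rfl⟩
      exact hS0 hκ
    · obtain ⟨κ, hκ⟩ := hlist y hy
      obtain ⟨κ', hκ', h4⟩ := hS02 κ (hinv _ _ hκ hy)
      exact ⟨_, ⟨κ', hκ', rfl⟩, hW.trans hκ h4⟩
  · right
    exact ⟨fun b i => d (h b i), hcd.comp h1, h2, h3⟩

theorem wreath {E : X → X → Prop} (hE : Equivalence E)
    (hEa : AnalyticSet {q : X × X | E q.1 q.2}) {A : Set (ℕ → X)} (hA : MeasurableSet A)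
    (hinv : ∀ y z, WE E y z → y ∈ A → z ∈ A) :
    ((∀ y ∈ A, rep y ∈ A) → Dich E A) ∧ Dich E {y | y ∈ A ∧ WE E y (rep y)} := by
  have hW := WE_equiv hE
  have hB : MeasurableSet (rep ⁻¹' A : Set (ℕ → X)) := continuous_rep.measurable hA
  have hBi : ∀ y z, J E y z → y ∈ (rep ⁻¹' A : Set (ℕ → X)) → z ∈ (rep ⁻¹' A : Set (ℕ → X)) :=
    fun y z h hy => hinv _ _ (WE_of_J hE h) hy
  rcases jump hE hEa hB hBi with ⟨S, hS, hSc, hS2⟩ | ⟨h, h1, h2, h3⟩
  · refine ⟨fun hcl => ?_, Or.inl ⟨rep '' S, ?_, hSc.image _, ?_⟩⟩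
    · rcases S.eq_empty_or_nonempty with hSe | ⟨z0, hz0⟩
      · left
        refine ⟨∅, empty_subset _, countable_empty, fun x hx => ?_⟩
        obtain ⟨y, hy, -⟩ := hS2 x (hcl x hx)
        rw [hSe] at hy
        exact hy.elim
      · have hTc : (⋃ z ∈ S, range z).Countable := hSc.biUnion fun z _ => countable_range z
        obtain ⟨d, hd⟩ := hTc.exists_eq_range ⟨z0 0, mem_biUnion hz0 (mem_range_self 0)⟩
        refine dich_list hE hA hinv d fun y hy i => ?_
        obtain ⟨z, hz, hJ⟩ := hS2 y (hcl y hy)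
        obtain ⟨j, hj⟩ := hJ.1 i
        have : z j ∈ range d := by
          rw [← hd]
          exact mem_biUnion hz (mem_range_self j)
        obtain ⟨n, hn⟩ := this
        exact ⟨n, by rw [hn]; exact hj⟩
    · rintro _ ⟨z, hz, rfl⟩
      exact ⟨hS hz, WE_of_J hE (J_rep hE z)⟩
    · rintro y ⟨hy, hyr⟩
      obtain ⟨z, hz, hJ⟩ := hS2 y (hinv _ _ hyr hy)
      exact ⟨_, ⟨z, hz, rfl⟩, hW.trans hyr (WE_of_J hE hJ)⟩
  · have h4 : ∀ b b', b ≠ b' → ¬ WE E (rep (h b)) (rep (h b')) := fun b b' hb hc =>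
      h3 b b' hb (J_of_WE_rep hE hc)
    exact ⟨fun _ => Or.inr ⟨fun b => rep (h b), continuous_rep.comp h1, h2, h4⟩,
      Or.inr ⟨fun b => rep (h b), continuous_rep.comp h1,
        fun b => ⟨h2 b, WE_of_J hE (J_rep hE _)⟩, h4⟩⟩

end Pool.Agent.H579R3.SV
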