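import Pool.Agent.H623R2.VE.Pow
import Pool.Agent.H623R2.VE.PerfSet

set_option autoImplicit false

/-!
The strong Vaught dichotomy for the members of an invariant Borel class whose components are all
isomorphic to components of structures having an infinite disjoint power in the class.
-/

namespace Pool.Agent.H579R3.VP

open Set MeasureTheory Pool.Agent.H623R2.VE

variable {Idx : Type} {a : Idx → ℕ}

/-- the members of `B` all of whose components have a type from the list `f` -/
def Lst (B : Set (Code a)) (f : ℕ → Code a × ℕ) : Set (Code a) :=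
  {c | c ∈ B ∧ ∀ b, ∃ n, CEq (toI c) b (toI (f n).1) (f n).2}

/-- there are `q.2 + 1` different components of type `q.1` -/
def Many (f : ℕ → Code a × ℕ) (c : Code a) (q : ℕ × ℕ) : Prop :=
  ∃ v : Fin (q.2 + 1) → ℕ,
    (∀ i j, Conn (toI c) (v i) (v j) → i = j) ∧
      ∀ i, CEq (toI c) (v i) (toI (f q.1).1) (f q.1).2

theorem many_iso (f : ℕ → Code a × ℕ) {c c' : Code a} (h : GIso (toI c) (toI c')) (q : ℕ × ℕ)
    (hm : Many f c q) : Many f c' q := by
  obtain ⟨g, hg⟩ := h
  obtain ⟨v, h1, h2⟩ := hm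
  refine ⟨fun i => g (v i), fun i j h => ?_, fun i => ?_⟩
  · exact h1 i j ((GIso.conn_iff g hg _ _).2 h)
  · exact (CEq.of_ciso (GIso.ciso g hg (v i))).symm.trans (h2 i)

/-- Structures with the same multiplicities of all component types of the list are isomorphic. -/
theorem glue_of_profile [Countable Idx] (f : ℕ → Code a × ℕ) {c c' : Code a}
    (hc : ∀ b, ∃ n, CEq (toI c) b (toI (f n).1) (f n).2)
    (hc' : ∀ b, ∃ n, CEq (toI c') b (toI (f n).1) (f n).2)
    (h : ∀ q, Many f c q ↔ Many f c' q) : GIso (toI c) (toI c') := by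
  classical
  let St : Setoid ℕ := ⟨fun n m => CEq (toI (f n).1) (f n).2 (toI (f m).1) (f m).2,
    fun n => CEq.refl _ _, CEq.symm, CEq.trans⟩
  have hτ : ∀ c : Code a, (∀ b, ∃ n, CEq (toI c) b (toI (f n).1) (f n).2) →
      ∃ τ : Comp (toI c) → Quotient St, ∀ κ q, τ κ = q ↔
      CEq (toI c) κ.out (toI (f q.out).1) (f q.out).2 := by
    intro c hf
    choose n hn using fun κ : Comp (toI c) => hf κ.out
    refine ⟨fun κ => Quotient.mk St (n κ), fun κ q => ?_⟩
    constructor
    · rintro rfl
      have h1 : CEq (toI (f (Quotient.mk St (n κ)).out).1) (f (Quotient.mk St (n κ)).out).2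
          (toI (f (n κ)).1) (f (n κ)).2 :=
        (Quotient.eq (r := St)).1 (Quotient.out_eq (Quotient.mk St (n κ)))
      exact (hn κ).trans h1.symm
    · intro h
      rw [← Quotient.out_eq q]
      exact Quotient.sound ((hn κ).symm.trans h)
  obtain ⟨τ, h1⟩ := hτ c hc
  obtain ⟨τ', h1'⟩ := hτ c' hc'
  have h3 : ∀ q, Nonempty ({κ : Comp (toI c) // τ κ = q} ≃
      {κ : Comp (toI c') // τ' κ = q}) := by
    intro q
    refine equiv_of_emb fun k => ?_
    have e1 : {κ : Comp (toI c) // τ κ = q} =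
        {κ : Comp (toI c) // CEq (toI c) κ.out (toI (f q.out).1) (f q.out).2} := by
      congr 1
      funext κ
      exact propext (h1 κ q)
    have e2 : {κ : Comp (toI c') // τ' κ = q} =
        {κ : Comp (toI c') // CEq (toI c') κ.out (toI (f q.out).1) (f q.out).2} := by
      congr 1
      funext κ
      exact propext (h1' κ q)
    rw [e1, e2, ← emb_iff (toI c) (fun x => CEq (toI c) x (toI (f q.out).1) (f q.out).2)
      (fun x y hxy h => (CEq.of_conn hxy.symm).trans h) k,
      ← emb_iff (toI c') (fun x => CEq (toI c') x (toI (f q.out).1) (f q.out).2)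
      (fun x y hxy h => (CEq.of_conn hxy.symm).trans h) k]
    exact h (q.out, k)
  let e : Comp (toI c) ≃ Comp (toI c') :=
    ((Equiv.sigmaFiberEquiv τ).symm.trans
      (Equiv.sigmaCongrRight fun q => (h3 q).some)).trans (Equiv.sigmaFiberEquiv τ')
  have he : ∀ κ, τ' (e κ) = τ κ := by
    intro κ
    exact ((h3 (τ κ)).some ⟨κ, rfl⟩).2
  refine glue e fun κ => ?_
  have h5 := (h1 κ (τ κ)).1 rfl
  have h6 := (h1' (e κ) (τ κ)).1 (he κ)
  exact h5.trans h6.symm

section
variable [Countable Idx]

/-- pairs of a member and a list of isomorphisms of its components onto components of the list -/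
def YY (B : Set (Code a)) (f : ℕ → Code a × ℕ) : Set (Code a × (ℕ → ℕ × (ℕ → ℕ))) :=
  {p | p.1 ∈ B ∧ ∀ b, CIso (toI p.1) (toI (f (p.2 b).1).1) (p.2 b).2 b ∧
    Conn (toI (f (p.2 b).1).1) ((p.2 b).2 b) (f (p.2 b).1).2}

theorem YY_meas {B : Set (Code a)} (hB : MeasurableSet B) (f : ℕ → Code a × ℕ) :
    MeasurableSet (YY B f) := by
  have e1 : YY B f = (Prod.fst ⁻¹' B) ∩ ⋂ b : ℕ, ⋃ n : ℕ,
      ((fun p : Code a × (ℕ → ℕ × (ℕ → ℕ)) => (p.2 b).1) ⁻¹' {n} ∩
      (fun p : Code a × (ℕ → ℕ × (ℕ → ℕ)) => (p.1, (p.2 b).2)) ⁻¹'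
        {p : Code a × (ℕ → ℕ) | CIso (toI p.1) (toI (f n).1) p.2 b ∧
          Conn (toI (f n).1) (p.2 b) (f n).2}) := by
    ext p
    simp only [YY, mem_ofPred_eq, mem_inter_iff, mem_preimage, mem_iInter, mem_iUnion,
      mem_singleton_iff]
    refine and_congr_right fun _ => forall_congr' fun b => ?_
    constructor
    · intro h
      exact ⟨_, rfl, h⟩
    · rintro ⟨n, rfl, h⟩
      exact h
  rw [e1]
  refine (measurable_fst hB).inter (MeasurableSet.iInter fun b => MeasurableSet.iUnion fun n =>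
    MeasurableSet.inter ?_ ?_)
  · exact (measurable_fst.comp ((measurable_pi_apply b).comp measurable_snd))
      (measurableSet_singleton n)
  · exact (measurable_fst.prodMk (measurable_snd.comp
      ((measurable_pi_apply b).comp measurable_snd))) (meas_ciso (toI (f n).1) b (f n).2)

theorem YY_ceq {B : Set (Code a)} {f : ℕ → Code a × ℕ} (y : YY B f) (x n : ℕ) :
    CEq (toI y.1.1) x (toI (f n).1) (f n).2 ↔
      CEq (toI (f (y.1.2 x).1).1) (f (y.1.2 x).1).2 (toI (f n).1) (f n).2 := by
  have h : CEq (toI y.1.1) x (toI (f (y.1.2 x).1).1) (f (y.1.2 x).1).2 :=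
    ⟨_, y.2.2 x⟩
  exact ⟨fun h' => h.symm.trans h', fun h' => h.trans h'⟩

/-- The dichotomy for the members of a Borel class with components from a countable list. -/
theorem dich_lst {B : Set (Code a)} (hB : MeasurableSet B) (f : ℕ → Code a × ℕ) :
    (∃ S : Set (Code a), S.Countable ∧ ∀ c ∈ Lst B f, ∃ c' ∈ S, GIso (toI c) (toI c')) ∨
      Perf GIso (Lst B f) := by
  classical
  have hYm := YY_meas hB f
  have hsb : StandardBorelSpace (YY B f) := hYm.standardBorel
  let J : YY B f → (ℕ × ℕ → Bool) := fun y q => decide (Many f y.1.1 q)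
  have hJ : Measurable J := by
    refine measurable_pi_lambda _ fun q => measurable_to_bool ?_
    have e1 : (fun y => J y q) ⁻¹' {true} = {y : YY B f | ∃ v : Fin (q.2 + 1) → ℕ,
        (∀ i j, Conn (toI y.1.1) (v i) (v j) → i = j) ∧
          ∀ i, CEq (toI (f (y.1.2 (v i)).1).1) (f (y.1.2 (v i)).1).2
            (toI (f q.1).1) (f q.1).2} := by
      ext y
      rw [mem_preimage, mem_singleton_iff, mem_ofPred_eq]
      show decide (Many f y.1.1 q) = true ↔ _
      rw [decide_eq_true_eq]
      refine exists_congr fun v => and_congr_right fun _ => forall_congr' fun i => ?_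
      exact YY_ceq y _ _
    rw [e1]
    refine measurableSet_setOfPred.2 ?_
    refine Measurable.exists fun v => Measurable.and ?_ ?_
    · refine Measurable.forall fun i => Measurable.forall fun j => Measurable.imp ?_
        measurable_const
      exact measurableSet_setOfPred.1
        ((measurable_fst.comp measurable_subtype_coe) (measurableSet_conn (v i) (v j)))
    · refine Measurable.forall fun i => ?_
      have hm : Measurable fun y : YY B f => (y.1.2 (v i)).1 :=
        measurable_fst.comp ((measurable_pi_apply (v i)).comp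
          (measurable_snd.comp measurable_subtype_coe))
      exact (measurable_from_top (f := fun k : ℕ => CEq (toI (f k).1) (f k).2
            (toI (f q.1).1) (f q.1).2)).comp hm
  by_cases hJc : (range J).Countable
  · left
    obtain ⟨S, hS, hS2⟩ := exists_reps J hJc
    refine ⟨(fun y : YY B f => y.1.1) '' S, hS.image _, fun c hc => ?_⟩
    obtain ⟨hcB, hcf⟩ := hc
    have hw : ∀ b, ∃ w : ℕ × (ℕ → ℕ), CIso (toI c) (toI (f w.1).1) w.2 b ∧
        Conn (toI (f w.1).1) (w.2 b) (f w.1).2 := by
      intro b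
      obtain ⟨n, g, hg⟩ := hcf b
      exact ⟨(n, g), hg⟩
    choose w hw using hw
    let y : YY B f := ⟨(c, w), hcB, hw⟩
    obtain ⟨y', hy', hyy⟩ := hS2 y
    refine ⟨y'.1.1, ⟨y', hy', rfl⟩, ?_⟩
    refine glue_of_profile f hcf (fun b => ⟨(y'.1.2 b).1, _, y'.2.2 b⟩) fun q => ?_
    have := congrFun hyy q
    simp only [J, decide_eq_decide] at this
    exact this.symm
  · right
    obtain ⟨h, h1, h2⟩ := Pool.Agent.H565R2.FO2.perfect_of_uncountable (Y := YY B f)
      (X := Code a) (fun y => y.1.1) (measurable_fst.comp measurable_subtype_coe)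
      (ι := Unit) (Z := ℕ × ℕ → Bool) (fun _ => J) (fun _ => hJ)
      (fun y y' => GIso (toI y.1.1) (toI y'.1.1)) (fun y y' h _ => ⟨(), by
        funext q
        rw [Bool.eq_iff_iff]
        simp only [J, decide_eq_true_eq]
        exact ⟨many_iso f h q, many_iso f h.symm q⟩⟩) (by
        intro hc
        apply hJc
        refine hc.mono ?_
        intro z hz
        exact mem_iUnion.2 ⟨(), hz⟩)
    refine ⟨fun x => (h x).1.1, h1, fun x => ⟨(h x).2.1, fun b =>
      ⟨((h x).1.2 b).1, _, (h x).2.2 b⟩⟩, fun x x' h3 => ?_⟩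
    by_contra hne
    exact h2 x x' hne h3

/-- the component of `b` in `c` is isomorphic to a component of a structure `d` such that the
infinite disjoint power of `d` is in `B` -/
def Mlt (B : Set (Code a)) (c : Code a) (b : ℕ) : Prop :=
  ∃ d : Code a, pwc d ∈ B ∧ ∃ b', CEq (toI c) b (toI d) b'

/-- The dichotomy for the members all of whose components occur in infinite powers. -/
theorem dich_mlt {B : Set (Code a)} (hB : MeasurableSet B)
    (hinv : ∀ c c' : Code a, GIso (toI c) (toI c') → c ∈ B → c' ∈ B) :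
    (∃ S : Set (Code a), S.Countable ∧ ∀ c ∈ {c | c ∈ B ∧ ∀ b, Mlt B c b},
      ∃ c' ∈ S, GIso (toI c) (toI c')) ∨
      Perf GIso {c | c ∈ B ∧ ∀ b, Mlt B c b} := by
  let K : Set (Code a) := pwc ⁻¹' B
  have hK : MeasurableSet K := continuous_pwc.measurable hB
  have hKi : ∀ c c' : Code a, GIso (toI c) (toI c') → c ∈ K → c' ∈ K := by
    intro c c' h hc
    refine hinv (pwc c) (pwc c') ?_ hc
    rw [toI_pwc, toI_pwc, giso_Pw_iff]
    exact h.covE
  have hpp : ∀ I : Interp a ℕ, GIso (Pw I) (Pw (Pw I)) := by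
    intro I
    rw [giso_Pw_iff]
    exact covE_Pw I
  have hKp : ∀ c ∈ K, pwc c ∈ K := by
    intro c hc
    refine hinv (pwc c) (pwc (pwc c)) ?_ hc
    rw [toI_pwc, toI_pwc, toI_pwc]
    exact hpp _
  by_cases hP : Perf CovE K
  · right
    obtain ⟨f, h1, h2, h3⟩ := hP
    refine ⟨fun x => pwc (f x), continuous_pwc.comp h1, fun x => ⟨h2 x, fun b => ?_⟩,
      fun x x' h => ?_⟩
    · refine ⟨f x, h2 x, ?_⟩
      rw [toI_pwc]
      exact (covE_Pw (toI (f x))).2 b
    · rw [toI_pwc, toI_pwc, giso_Pw_iff] at h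
      exact h3 x x' h
  · obtain ⟨f, hf⟩ := core hK hKi hKp hP
    by_cases h0 : ∃ n, Mlt B (f n).1 (f n).2
    · obtain ⟨n0, hn0⟩ := h0
      classical
      let f' : ℕ → Code a × ℕ := fun n => if Mlt B (f n).1 (f n).2 then f n else f n0
      have hf' : ∀ n, Mlt B (f' n).1 (f' n).2 := by
        intro n
        by_cases h : Mlt B (f n).1 (f n).2
        · simp only [f', if_pos h]; exact h
        · simp only [f', if_neg h]; exact hn0
      have hV : {c | c ∈ B ∧ ∀ b, Mlt B c b} = Lst B f' := by
        ext c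
        constructor
        · rintro ⟨hc, hm⟩
          refine ⟨hc, fun b => ?_⟩
          obtain ⟨d, hd, b', hb'⟩ := hm b
          obtain ⟨n, hn⟩ := hf d hd b'
          refine ⟨n, ?_⟩
          have hmn : Mlt B (f n).1 (f n).2 := ⟨d, hd, b', hn.symm⟩
          simp only [f', if_pos hmn]
          exact hb'.trans hn
        · rintro ⟨hc, hm⟩
          refine ⟨hc, fun b => ?_⟩
          obtain ⟨n, hn⟩ := hm b
          obtain ⟨d, hd, b', hb'⟩ := hf' n
          exact ⟨d, hd, b', hn.trans hb'⟩
      rw [hV]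
      exact dich_lst hB f'
    · left
      refine ⟨∅, countable_empty, ?_⟩
      rintro c ⟨hc, hm⟩
      exfalso
      apply h0
      obtain ⟨d, hd, b', hb'⟩ := hm 0
      obtain ⟨n, hn⟩ := hf d hd b'
      exact ⟨n, d, hd, b', hn.symm⟩

end

end Pool.Agent.H579R3.VP
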