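import Pool.Agent.H579R3.VP
import Pool.Agent.H566W.Ana

set_option autoImplicit false

/-!
The strong Vaught dichotomy over finite sets of parameters: naming the first `n` elements of a
structure by constants turns it into a structure on the remaining elements in a larger relational
language.
-/

namespace Pool.Agent.H579R3.VR

open Set MeasureTheory Pool.Agent.H623R2.VE Pool.Agent.H579R3.VP

variable {a : ℕ → ℕ} {n : ℕ}

/-- Relation symbols of the language with `n` constants eliminated: a relation symbol `i` and a
function which tells which positions are filled by which constant. -/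
abbrev Jdx (a : ℕ → ℕ) (n : ℕ) : Type := (i : ℕ) × (Fin (a i) → Option (Fin n))

/-- the number of the free positions -/
def ar (a : ℕ → ℕ) (n : ℕ) (q : Jdx a n) : ℕ := Fintype.card {k // q.2 k = none}

/-- an enumeration of the free positions -/
noncomputable def en (q : Jdx a n) : Fin (ar a n q) ≃ {k // q.2 k = none} :=
  (Fintype.equivFin _).symm

/-- which entries of a tuple are which of the first `n` elements -/
def sgn (n : ℕ) {m : ℕ} (t : Fin m → ℕ) : Fin m → Option (Fin n) := fun k =>
  if h : t k < n then some ⟨t k, h⟩ else none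

theorem sgn_none {m : ℕ} {t : Fin m → ℕ} {k : Fin m} : sgn n t k = none ↔ n ≤ t k := by
  unfold sgn
  split_ifs with h
  · simp; exact h
  · simp; exact not_lt.1 h

/-- put the constants into the tuple -/
noncomputable def join {n : ℕ} (q : Jdx a n) (t : Fin (ar a n q) → ℕ) : Fin (a q.1) → ℕ := fun k =>
  match h : q.2 k with
  | some j => j
  | none => n + t ((en q).symm ⟨k, h⟩)

theorem join_some (q : Jdx a n) (t : Fin (ar a n q) → ℕ) {k : Fin (a q.1)} {j : Fin n}
    (h : q.2 k = some j) : join q t k = j := by
  unfold join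
  split
  · rename_i j' h'
    rw [h] at h'
    rw [Option.some.inj h']
  · rename_i h'
    rw [h] at h'
    exact absurd h' (by simp)

theorem join_none (q : Jdx a n) (t : Fin (ar a n q) → ℕ) {k : Fin (a q.1)}
    (h : q.2 k = none) : join q t k = n + t ((en q).symm ⟨k, h⟩) := by
  unfold join
  split
  · rename_i j' h'
    rw [h] at h'
    exact absurd h' (by simp)
  · rfl

theorem join_en (q : Jdx a n) (t : Fin (ar a n q) → ℕ) (j : Fin (ar a n q)) :
    join q t (en q j).1 = n + t j := by
  rw [join_none q t (en q j).2]
  congr 2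
  rw [Equiv.symm_apply_eq]

theorem sgn_join (q : Jdx a n) (t : Fin (ar a n q) → ℕ) : sgn n (join q t) = q.2 := by
  funext k
  rcases h : q.2 k with _ | j
  · rw [sgn_none, join_none q t h]
    exact Nat.le_add_right _ _
  · have h1 := join_some q t h
    unfold sgn
    rw [dif_pos (by rw [h1]; exact j.2)]
    congr 1
    exact Fin.ext h1

/-- The structure in which the first `n` elements are named, on the remaining elements. -/
noncomputable def rest (n : ℕ) (x : Code a) : Code (ar a n) := fun q t => x q.1 (join q t)

/-- The inverse of `rest`. -/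
noncomputable def back (c : Code (ar a n)) : Code a := fun i t =>
  c ⟨i, sgn n t⟩ (fun j => t (en ⟨i, sgn n t⟩ j).1 - n)

theorem back_eq (c : Code (ar a n)) {i : ℕ} {t : Fin (a i) → ℕ} {s : Fin (a i) → Option (Fin n)}
    (h : sgn n t = s) : back c i t = c ⟨i, s⟩ (fun j => t (en ⟨i, s⟩ j).1 - n) := by
  subst h
  rfl

theorem rest_back (c : Code (ar a n)) : rest n (back c) = c := by
  funext q t
  obtain ⟨i, s⟩ := q
  unfold rest
  rw [back_eq c (sgn_join ⟨i, s⟩ t)]
  congr 1
  funext j
  rw [join_en]
  exact Nat.add_sub_cancel_left _ _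

theorem back_rest (x : Code a) : back (rest n x) = x := by
  funext i t
  show x i (join ⟨i, sgn n t⟩ (fun j => t (en ⟨i, sgn n t⟩ j).1 - n)) = x i t
  congr 1
  funext k
  rcases h : sgn n t k with _ | j
  · rw [join_none (q := ⟨i, sgn n t⟩) _ h]
    simp only [Equiv.apply_symm_apply]
    exact Nat.add_sub_cancel' (sgn_none.1 h)
  · rw [join_some (q := ⟨i, sgn n t⟩) _ h]
    unfold sgn at h
    split_ifs at h with h1
    rw [← Option.some.inj h]

theorem continuous_back : Continuous (back : Code (ar a n) → Code a) := by
  refine continuous_pi fun i => continuous_pi fun t => ?_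
  exact (continuous_apply (fun j => t (en ⟨i, sgn n t⟩ j).1 - n)).comp
    (continuous_apply (⟨i, sgn n t⟩ : Jdx a n))

/-- extend a permutation by the identity on the first `n` elements -/
def lift (n : ℕ) (g : Equiv.Perm ℕ) : Equiv.Perm ℕ where
  toFun x := if x < n then x else n + g (x - n)
  invFun x := if x < n then x else n + g.symm (x - n)
  left_inv x := by
    by_cases h : x < n
    · simp [h]
    · simp only [if_neg h]
      rw [if_neg (by omega), Nat.add_sub_cancel_left, Equiv.symm_apply_apply]
      omega
  right_inv x := by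
    by_cases h : x < n
    · simp [h]
    · simp only [if_neg h]
      rw [if_neg (by omega), Nat.add_sub_cancel_left, Equiv.apply_symm_apply]
      omega

theorem lift_lt {g : Equiv.Perm ℕ} {x : ℕ} (h : x < n) : lift n g x = x := if_pos h

theorem lift_ge {g : Equiv.Perm ℕ} {x : ℕ} (h : n ≤ x) : lift n g x = n + g (x - n) :=
  if_neg (not_lt.2 h)

theorem sgn_lift {m : ℕ} (g : Equiv.Perm ℕ) (t : Fin m → ℕ) :
    sgn n (fun k => lift n g (t k)) = sgn n t := by
  funext k
  by_cases h : t k < n
  · simp only [sgn, lift_lt h, dif_pos h]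
  · have h1 : ¬ lift n g (t k) < n := by
      rw [lift_ge (not_lt.1 h)]
      omega
    simp only [sgn, dif_neg h1, dif_neg h]

theorem giso_back {c c' : Code (ar a n)} (h : GIso (toI c) (toI c')) :
    GIso (toI (back c)) (toI (back c')) := by
  obtain ⟨g, hg⟩ := h
  refine ⟨lift n g, fun i t => ?_⟩
  show back c i t = true ↔ back c' i (fun k => lift n g (t k)) = true
  rw [back_eq c rfl, back_eq c' (sgn_lift g t)]
  have h1 := hg ⟨i, sgn n t⟩ (fun j => t (en ⟨i, sgn n t⟩ j).1 - n)
  have h2 : (fun j => lift n g (t (en (⟨i, sgn n t⟩ : Jdx a n) j).1) - n) =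
      fun j => g (t (en (⟨i, sgn n t⟩ : Jdx a n) j).1 - n) := by
    funext j
    rw [lift_ge (sgn_none.1 (en (⟨i, sgn n t⟩ : Jdx a n) j).2), Nat.add_sub_cancel_left]
  rw [h2]
  exact h1

/-- an isomorphism which fixes the first `n` elements is an isomorphism of the rests -/
theorem giso_of_back {c c' : Code (ar a n)} (σ : Equiv.Perm ℕ) (hσ : ∀ j, j < n → σ j = j)
    (h : ∀ i (t : Fin (a i) → ℕ), back c i t = back c' i (fun k => σ (t k))) :
    GIso (toI c) (toI c') := by
  have hge : ∀ x, n ≤ x → n ≤ σ x := by
    intro x hx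
    by_contra hlt
    have h1 := hσ (σ x) (not_le.1 hlt)
    have h2 := σ.injective h1
    omega
  have hσ' : ∀ j, j < n → σ.symm j = j := by
    intro j hj
    rw [Equiv.symm_apply_eq, hσ j hj]
  have hge' : ∀ x, n ≤ x → n ≤ σ.symm x := by
    intro x hx
    by_contra hlt
    have h1 := hσ' (σ.symm x) (not_le.1 hlt)
    have h2 := σ.symm.injective h1
    omega
  let g : Equiv.Perm ℕ :=
    { toFun := fun x => σ (n + x) - n
      invFun := fun x => σ.symm (n + x) - n
      left_inv := fun x => by
        have := hge (n + x) (Nat.le_add_right _ _)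
        simp only
        rw [Nat.add_sub_cancel' this, Equiv.symm_apply_apply, Nat.add_sub_cancel_left]
      right_inv := fun x => by
        have := hge' (n + x) (Nat.le_add_right _ _)
        simp only
        rw [Nat.add_sub_cancel' this, Equiv.apply_symm_apply, Nat.add_sub_cancel_left] }
  refine ⟨g, fun q t => ?_⟩
  have h1 := h q.1 (join q t)
  have h2 : (fun k => σ (join q t k)) = join q (fun j => g (t j)) := by
    funext k
    rcases hk : q.2 k with _ | j
    · rw [join_none q _ hk, join_none q _ hk]
      show σ (n + _) = n + (σ (n + _) - n)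
      exact (Nat.add_sub_cancel' (hge _ (Nat.le_add_right _ _))).symm
    · rw [join_some q _ hk, join_some q _ hk]
      exact hσ _ j.2
  rw [h2] at h1
  have h3 : c q t = back c q.1 (join q t) := by
    conv_lhs => rw [← rest_back c]
    rfl
  have h4 : c' q (fun j => g (t j)) = back c' q.1 (join q (fun j => g (t j))) := by
    conv_lhs => rw [← rest_back c']
    rfl
  show c q t = true ↔ c' q (fun j => g (t j)) = true
  rw [h3, h4, h1]

theorem analytic_giso {F : (ℕ → Bool) → Code a} (hF : Continuous F) :
    AnalyticSet {p : (ℕ → Bool) × (ℕ → Bool) | GIso (toI (F p.1)) (toI (F p.2))} := by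
  let S : Set (((ℕ → Bool) × (ℕ → Bool)) × ((ℕ → ℕ) × (ℕ → ℕ))) :=
    {p | (∀ y, p.2.2 (p.2.1 y) = y) ∧ (∀ y, p.2.1 (p.2.2 y) = y) ∧
      ∀ i (t : Fin (a i) → ℕ), (F p.1.1 i t = true ↔ ∃ w : Fin (a i) → ℕ,
        (∀ k, p.2.1 (t k) = w k) ∧ F p.1.2 i w = true)}
  have hev : ∀ y, Measurable fun p : ((ℕ → Bool) × (ℕ → Bool)) × ((ℕ → ℕ) × (ℕ → ℕ)) =>
      p.2.1 y := fun y =>
    (measurable_pi_apply y).comp (measurable_fst.comp measurable_snd)
  have hev2 : ∀ y, Measurable fun p : ((ℕ → Bool) × (ℕ → Bool)) × ((ℕ → ℕ) × (ℕ → ℕ)) =>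
      p.2.2 y := fun y =>
    (measurable_pi_apply y).comp (measurable_snd.comp measurable_snd)
  have hcoord : ∀ i (t : Fin (a i) → ℕ), Measurable fun x : ℕ → Bool => F x i t := fun i t =>
    ((continuous_apply t).comp ((continuous_apply i).comp hF)).measurable
  have hS : MeasurableSet S := by
    refine measurableSet_setOfPred.2 (Measurable.and ?_ (Measurable.and ?_ ?_))
    · refine Measurable.forall fun y => ?_
      have e : (fun p : ((ℕ → Bool) × (ℕ → Bool)) × ((ℕ → ℕ) × (ℕ → ℕ)) =>
          p.2.2 (p.2.1 y) = y) = fun p => ∃ z : ℕ, p.2.1 y = z ∧ p.2.2 z = y := by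
        funext p
        apply propext
        constructor
        · intro h
          exact ⟨_, rfl, h⟩
        · rintro ⟨z, rfl, h⟩
          exact h
      rw [e]
      refine Measurable.exists fun z => Measurable.and ?_ ?_
      · exact measurableSet_setOfPred.1 (hev y (measurableSet_singleton z))
      · exact measurableSet_setOfPred.1 (hev2 z (measurableSet_singleton y))
    · refine Measurable.forall fun y => ?_
      have e : (fun p : ((ℕ → Bool) × (ℕ → Bool)) × ((ℕ → ℕ) × (ℕ → ℕ)) =>
          p.2.1 (p.2.2 y) = y) = fun p => ∃ z : ℕ, p.2.2 y = z ∧ p.2.1 z = y := by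
        funext p
        apply propext
        constructor
        · intro h
          exact ⟨_, rfl, h⟩
        · rintro ⟨z, rfl, h⟩
          exact h
      rw [e]
      refine Measurable.exists fun z => Measurable.and ?_ ?_
      · exact measurableSet_setOfPred.1 (hev2 y (measurableSet_singleton z))
      · exact measurableSet_setOfPred.1 (hev z (measurableSet_singleton y))
    · refine Measurable.forall fun i => Measurable.forall fun t => Measurable.iff ?_ ?_
      · exact measurableSet_setOfPred.1 (((hcoord i t).comp (measurable_fst.comp measurable_fst))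
          (measurableSet_singleton true))
      · refine Measurable.exists fun w => Measurable.and ?_ ?_
        · refine Measurable.forall fun k => ?_
          exact measurableSet_setOfPred.1 (hev (t k) (measurableSet_singleton (w k)))
        · exact measurableSet_setOfPred.1 (((hcoord i w).comp
            (measurable_snd.comp measurable_fst)) (measurableSet_singleton true))
  have h := hS.analyticSet_image (f := Prod.fst) measurable_fst
  have e1 : Prod.fst '' S = {p : (ℕ → Bool) × (ℕ → Bool) |
      GIso (toI (F p.1)) (toI (F p.2))} := by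
    ext p
    constructor
    · rintro ⟨⟨p', g, g'⟩, ⟨h1, h2, h3⟩, rfl⟩
      refine ⟨⟨g, g', h1, h2⟩, fun i t => ?_⟩
      refine (h3 i t).trans ?_
      constructor
      · rintro ⟨w, hw, h⟩
        have : w = fun k => g (t k) := funext fun k => (hw k).symm
        rw [this] at h
        exact h
      · intro h
        exact ⟨fun k => g (t k), fun k => rfl, h⟩
    · rintro ⟨g, hg⟩
      refine ⟨(p, g, g.symm), ⟨fun y => g.symm_apply_apply y, fun y => g.apply_symm_apply y,
        fun i t => ?_⟩, rfl⟩
      refine (hg i t).trans ?_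
      constructor
      · intro h
        exact ⟨fun k => g (t k), fun k => rfl, h⟩
      · rintro ⟨w, hw, h⟩
        have : w = fun k => g (t k) := funext fun k => (hw k).symm
        rw [this] at h
        exact h
  rwa [e1] at h

/-- From dichotomies for the structures with `n` named elements, for all `n`, to a dichotomy for
the structures. -/
theorem transfer (V : ∀ n, Set (Code (ar a n)))
    (hd : ∀ n, (∃ S : Set (Code (ar a n)), S.Countable ∧ ∀ c ∈ V n, ∃ c' ∈ S,
      GIso (toI c) (toI c')) ∨ Perf GIso (V n)) :
    (∃ S : Set (Code a), S.Countable ∧ ∀ x : Code a,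
      (∃ n, ∃ c ∈ V n, GIso (toI x) (toI (back c))) → ∃ x' ∈ S, GIso (toI x) (toI x')) ∨
    (∃ n, ∃ f : (ℕ → Bool) → Code (ar a n), Continuous f ∧ (∀ b, f b ∈ V n) ∧
      ∀ b b', GIso (toI (back (f b))) (toI (back (f b'))) → b = b') := by
  by_cases hP : ∃ n, Perf GIso (V n)
  · right
    obtain ⟨n, f, hf1, hf2, hf3⟩ := hP
    refine ⟨n, ?_⟩
    have hF : Continuous fun b => back (f b) := continuous_back.comp hf1
    obtain ⟨h, hh1, hh2⟩ := Pool.Agent.H566W.perfect_independent
      (fun x y => GIso (toI (back (f x))) (toI (back (f y)))) (analytic_giso hF) (by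
        intro x
        choose σ hσ using fun y : {y | GIso (toI (back (f x))) (toI (back (f y)))} => y.2
        have hinj : Function.Injective
            (fun (y : {y | GIso (toI (back (f x))) (toI (back (f y)))}) (j : Fin n) =>
              (σ y).symm (j : ℕ)) := by
          intro y y' hyy
          apply Subtype.ext
          apply hf3
          refine giso_of_back ((σ y).symm.trans (σ y')) (fun j hj => ?_) (fun i t => ?_)
          · have h1 : (σ y).symm j = (σ y').symm j := congrFun hyy ⟨j, hj⟩
            show σ y' ((σ y).symm j) = j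
            rw [h1, Equiv.apply_symm_apply]
          · have h1 := hσ y i (fun k => (σ y).symm (t k))
            have h2 := hσ y' i (fun k => (σ y).symm (t k))
            simp only [Equiv.apply_symm_apply] at h1
            rw [Bool.eq_iff_iff]
            exact h1.symm.trans h2
        exact hinj.countable)
    refine ⟨fun b => f (h b), hf1.comp hh1, fun b => hf2 _, fun b b' hb => ?_⟩
    by_contra hne
    exact hh2 b b' hne hb
  · left
    have hd' : ∀ n, ∃ S : Set (Code (ar a n)), S.Countable ∧ ∀ c ∈ V n, ∃ c' ∈ S,
        GIso (toI c) (toI c') := fun n => (hd n).resolve_right fun h => hP ⟨n, h⟩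
    choose S hS hS2 using hd'
    refine ⟨⋃ n, back '' (S n), countable_iUnion fun n => (hS n).image _, ?_⟩
    rintro x ⟨n, c, hc, hx⟩
    obtain ⟨c', hc', h⟩ := hS2 n c hc
    exact ⟨back c', mem_iUnion.2 ⟨n, c', hc', rfl⟩, hx.trans (giso_back h)⟩

end Pool.Agent.H579R3.VR
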